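import Pool.Agent.R30.Mat.Pic

set_option autoImplicit false

/-! Labels near vertices, the arcs, and labels on both sides of an arc. -/

namespace Pool.Agent.R30.Mat

open Set Topology Pool.Agent.R30.C4 Pool.Agent.R30.Thr

attribute [local irreducible] px py PX PY baseL sideL pathL crossL trL faceL oL BL NKL

/-- if all regions at `p` have the label `L` then the region `L` is a neighbourhood of `p` -/
lemma nhds_all (X : LPic) {p : ℝ × ℝ} {L : ℕ}
    (h1 : ∀ a b c, X.cell a b c → p ∈ tri (X.P a) (X.P b) (X.P c) → X.lab a b c = L)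
    (h2 : ∀ a b c, X.outs a b c → p ∈ otri (X.P a) (X.P b) (X.P c) → X.olab = L) :
    X.R L ∈ 𝓝 p := by
  set F : Set (ℝ × ℝ) := (⋃ a ∈ Set.Iio X.N, ⋃ b ∈ Set.Iio X.N, ⋃ c ∈ Set.Iio X.N,
      {q | (X.cell a b c ∧ X.lab a b c ≠ L) ∧ q ∈ tri (X.P a) (X.P b) (X.P c)}) ∪
      ⋃ a ∈ Set.Iio X.N, ⋃ b ∈ Set.Iio X.N, ⋃ c ∈ Set.Iio X.N,
      {q | (X.outs a b c ∧ X.olab ≠ L) ∧ q ∈ otri (X.P a) (X.P b) (X.P c)} with hF
  have hFc : IsClosed F := by
    have hc1 : ∀ a b c, IsClosed {q | (X.cell a b c ∧ X.lab a b c ≠ L) ∧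
        q ∈ tri (X.P a) (X.P b) (X.P c)} := by
      intro a b c
      by_cases h : X.cell a b c ∧ X.lab a b c ≠ L
      · simpa [h] using isClosed_tri _ _ _
      · simp [h]
    have hc2 : ∀ a b c, IsClosed {q | (X.outs a b c ∧ X.olab ≠ L) ∧
        q ∈ otri (X.P a) (X.P b) (X.P c)} := by
      intro a b c
      by_cases h : X.outs a b c ∧ X.olab ≠ L
      · simpa [h] using isClosed_otri _ _ _
      · simp [h]
    refine IsClosed.union ?_ ?_
    · exact (Set.finite_Iio _).isClosed_biUnion fun a _ => (Set.finite_Iio _).isClosed_biUnion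
        fun b _ => (Set.finite_Iio _).isClosed_biUnion fun c _ => hc1 a b c
    · exact (Set.finite_Iio _).isClosed_biUnion fun a _ => (Set.finite_Iio _).isClosed_biUnion
        fun b _ => (Set.finite_Iio _).isClosed_biUnion fun c _ => hc2 a b c
  have hp : p ∉ F := by
    rw [hF]
    simp only [mem_union, mem_iUnion, mem_Iio, exists_prop, mem_ofPred_eq, not_or]
    constructor
    · rintro ⟨a, -, b, -, c, -, ⟨h, hn⟩, hm⟩; exact hn (h1 a b c h hm)
    · rintro ⟨a, -, b, -, c, -, ⟨h, hn⟩, hm⟩; exact hn (h2 a b c h hm)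
  refine Filter.mem_of_superset (hFc.isOpen_compl.mem_nhds hp) ?_
  intro q hq
  have hU : q ∈ X.U := by rw [X.cover]; trivial
  rw [hF] at hq
  simp only [mem_compl_iff, mem_union, mem_iUnion, mem_Iio, exists_prop, mem_ofPred_eq,
    not_or] at hq
  rcases hU with ⟨a, b, c, h, hm⟩ | ⟨a, b, c, h, hm⟩
  · by_cases hl : X.lab a b c = L
    · exact Or.inl ⟨a, b, c, h, hl, hm⟩
    · obtain ⟨l1, l2, l3⟩ := X.cell_lt' h
      exact absurd ⟨a, l1, b, l2, c, l3, ⟨h, hl⟩, hm⟩ hq.1
  · by_cases hl : X.olab = L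
    · exact Or.inr ⟨hl, a, b, c, h, hm⟩
    · obtain ⟨l1, l2, l3⟩ := X.outs_lt' h
      exact absurd ⟨a, l1, b, l2, c, l3, ⟨h, hl⟩, hm⟩ hq.2

/-- labels at an end -/
lemma label_end {i L : ℕ} (hi : i < 18) (h : P i ∈ X.R L) : L = face i := by
  rcases h with ⟨a, b, c, hc, hL, hm⟩ | ⟨-, a, b, c, hc, hm⟩
  · have hmem := lab_mem hc
    have hL' : lab a b c = L := hL
    rw [hL'] at hmem
    refine of_base (Q := fun a b c L => P i ∈ tri (P a) (P b) (P c) → L = face i) ?_ ?_ hmem hm
    · intro a b c L h hm; apply h; rw [← tri_rot]; exact hm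
    · intro a b c L h hm
      have hcor := corner_of h (by omega) hm
      have := List.all_eq_true.mp (List.all_eq_true.mp c_face _ h) i (List.mem_range.mpr hi)
      simp only [cor, Bool.or_eq_true, Bool.not_eq_true', Nat.beq_eq] at this
      rcases this with h | h
      · exfalso
        simp only [Bool.or_eq_false_iff] at h
        rcases hcor with rfl | rfl | rfl <;> simp at h
      · exact h
  · exfalso
    have key : ∀ x y z, Outs x y z → 0 < ori (P x) (P y) (P i) := by
      intro x y z ho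
      have := List.all_eq_true.mp (List.all_eq_true.mp c_oin _ ho) i (List.mem_range.mpr (by omega))
      exact (pos_iff _ _ _).mp this
    rcases hm with h0 | h0 | h0
    · have := key _ _ _ hc; exact absurd h0 (not_le.mpr this)
    · have := key _ _ _ (outs_rot hc); exact absurd h0 (not_le.mpr this)
    · have := key _ _ _ (outs_rot (outs_rot hc)); exact absurd h0 (not_le.mpr this)

/-- a point off the sides of edges is interior to its region -/
lemma R_nhds' {L : ℕ} {p : ℝ × ℝ} (hR : p ∈ X.R L)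
    (hs : ∀ a b, X.rl a b → p ∉ segment ℝ (P a) (P b)) : X.R L ∈ 𝓝 p := by
  by_cases hp : p ∈ X.pts
  swap
  · exact X.R_nhds hR hp hs
  obtain ⟨i, hi, rfl⟩ := hp
  have hi' : i < 57 := hi
  by_cases h54 : i < 54
  · exfalso
    have := List.all_eq_true.mp c_real i (List.mem_range.mpr h54)
    simp only [List.any_eq_true, Nat.beq_eq, Prod.exists] at this
    obtain ⟨a, b, k, h, rfl⟩ := this
    exact hs a b ⟨k, h⟩ (left_mem_segment _ _ _)
  · have hco : ∀ {a b c M : ℕ}, (a, b, c, M) ∈ cellsL → P i ∈ tri (P a) (P b) (P c) → M = oL := by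
      intro a b c M hmem hm
      refine of_base (Q := fun a b c L => P i ∈ tri (P a) (P b) (P c) → L = oL) ?_ ?_ hmem hm
      · intro a b c L h hm; apply h; rw [← tri_rot]; exact hm
      · intro a b c L h hm
        have hcor := corner_of h hi' hm
        have hi3 : i ∈ [54, 55, 56] := by
          have : i = 54 ∨ i = 55 ∨ i = 56 := by omega
          rcases this with rfl | rfl | rfl <;> simp
        have := List.all_eq_true.mp (List.all_eq_true.mp c_ovx _ h) i hi3
        simp only [cor, Bool.or_eq_true, Bool.not_eq_true', Nat.beq_eq] at this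
        rcases this with h | h
        · exfalso
          simp only [Bool.or_eq_false_iff] at h
          rcases hcor with rfl | rfl | rfl <;> simp at h
        · exact h
    have hLo : L = oL := by
      rcases hR with ⟨a, b, c, hc, hL, hm⟩ | ⟨hL, -⟩
      · have hmem := lab_mem hc
        have hL' : lab a b c = L := hL
        rw [hL'] at hmem
        exact hco hmem hm
      · exact hL.symm
    subst hLo
    apply nhds_all
    · intro a b c hc hm
      exact hco (lab_mem hc) hm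
    · intro a b c _ _; rfl

/-- the arcs -/
def A (k : ℕ) : Set (ℝ × ℝ) := {x | ∃ a b, (a, b, k) ∈ sideL ∧ x ∈ segment ℝ (P a) (P b)}

lemma isClosed_seg (a b : ℝ × ℝ) : IsClosed (segment ℝ a b) := by
  rw [segment_eq_image]
  exact (isCompact_Icc.image (by fun_prop)).isClosed

lemma isClosed_A (k : ℕ) : IsClosed (A k) := by
  have : A k = ⋃ z ∈ {z | z ∈ sideL}, {x | z.2.2 = k ∧ x ∈ segment ℝ (P z.1) (P z.2.1)} := by
    ext x
    simp only [A, mem_iUnion, mem_ofPred_eq, exists_prop, Prod.exists]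
    constructor
    · rintro ⟨a, b, h, hx⟩; exact ⟨a, b, k, h, rfl, hx⟩
    · rintro ⟨a, b, k', h, rfl, hx⟩; exact ⟨a, b, h, hx⟩
  rw [this]
  apply Set.Finite.isClosed_biUnion (List.finite_toSet _)
  rintro ⟨a, b, k'⟩ -
  by_cases h : k' = k
  · simpa [h] using isClosed_seg _ _
  · simp [h]

lemma mem_A {a b k : ℕ} (h : (a, b, k) ∈ realL) {x : ℝ × ℝ} (hx : x ∈ segment ℝ (P a) (P b)) :
    x ∈ A k := by
  rcases real_iff.mp h with h | h
  · exact ⟨a, b, h, hx⟩
  · exact ⟨b, a, h, by rw [segment_symm]; exact hx⟩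

lemma real_lt {a b k : ℕ} (h : (a, b, k) ∈ realL) : a < 54 ∧ b < 54 ∧ k < 9 := by
  have h1 := List.all_eq_true.mp c_rlt _ h
  have h2 := List.all_eq_true.mp c_rlt _ (real_symm h)
  simp only [Bool.and_eq_true, Nat.blt_eq] at h1 h2
  exact ⟨h1.1, h2.1, h1.2⟩

/-- connected sets off the arcs stay in one region -/
lemma const' {C : Set (ℝ × ℝ)} (hC : IsPreconnected C) (hav : ∀ p ∈ C, ∀ j < 9, p ∉ A j) {L : ℕ}
    (hne : (C ∩ X.R L).Nonempty) : C ⊆ X.R L := by
  refine Pic.trapped_aux hC (X.isClosed_R L) hne fun p hp hR => R_nhds' hR ?_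
  rintro a b ⟨k, hk⟩ hs
  exact hav p hp k (real_lt hk).2.2 (mem_A hk hs)

/-- a point off the arcs has one label -/
lemma label_uniq {p : ℝ × ℝ} (hav : ∀ j < 9, p ∉ A j) {L L' : ℕ} (h : p ∈ X.R L)
    (h' : p ∈ X.R L') : L = L' := by
  have hN : X.R L ∈ 𝓝 p := by
    refine R_nhds' h ?_
    rintro a b ⟨k, hk⟩ hs
    exact hav k (real_lt hk).2.2 (mem_A hk hs)
  have hN' : X.R L' ∈ 𝓝 p := by
    refine R_nhds' h' ?_
    rintro a b ⟨k, hk⟩ hs
    exact hav k (real_lt hk).2.2 (mem_A hk hs)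
  rcases X.cell_near h hN' with ⟨a, b, c, hc, hl, q, hq1, hq2⟩ | ⟨hl, a, b, c, ho, hm⟩
  · rw [← hl]; exact X.label_of_open hc hq2 hq1
  rcases X.cell_near h' hN with ⟨a', b', c', hc', hl', q, hq1, hq2⟩ | ⟨hl', -⟩
  · rw [← hl']; exact (X.label_of_open hc' hq2 hq1).symm
  · rw [← hl, ← hl']

/-- orientation of a point of a side -/
lemma seg_pos {x y a b p : ℝ × ℝ} (h1 : 0 < ori x y a) (h2 : 0 < ori x y b)
    (hp : p ∈ segment ℝ a b) : 0 < ori x y p := by
  obtain ⟨s, t, hs, ht, hst, rfl⟩ := hp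
  have : s = 1 - t := by linarith
  subst this
  rw [ori_combo]
  rcases ht.eq_or_lt with h | h
  · rw [← h]; simpa using h1
  · have e1 : 0 ≤ (1 - t) * ori x y a := mul_nonneg hs h1.le
    have e2 : 0 < t * ori x y b := mul_pos h h2
    linarith

/-- a point of a side of an edge is strictly inside the outer triangle -/
lemma side_inside {a b k : ℕ} (h : (a, b, k) ∈ realL) {p : ℝ × ℝ}
    (hp : p ∈ segment ℝ (P a) (P b)) {x y z : ℕ} (ho : Outs x y z) :
    p ∉ otri (P x) (P y) (P z) := by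
  obtain ⟨ha, hb, -⟩ := real_lt h
  have key : ∀ x y z, Outs x y z → 0 < ori (P x) (P y) p := by
    intro x y z ho
    have h1 := List.all_eq_true.mp (List.all_eq_true.mp c_oin _ ho) a (List.mem_range.mpr ha)
    have h2 := List.all_eq_true.mp (List.all_eq_true.mp c_oin _ ho) b (List.mem_range.mpr hb)
    exact seg_pos ((pos_iff _ _ _).mp h1) ((pos_iff _ _ _).mp h2) hp
  rintro (h0 | h0 | h0)
  · have := key _ _ _ ho; linarith
  · have := key _ _ _ (outs_rot ho); linarith
  · have := key _ _ _ (outs_rot (outs_rot ho)); linarith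

lemma side_ne {a b k : ℕ} (h : (a, b, k) ∈ realL) : P a ≠ P b := by
  have := List.all_eq_true.mp c_tr _ h
  simp only [List.any_eq_true, Bool.and_eq_true, Nat.beq_eq, Prod.exists] at this
  obtain ⟨x1, x2, c, l1, hc, ⟨rfl, rfl⟩, -⟩ := this
  have h1 := cell_pos' hc
  intro he
  rw [he] at h1
  simp [ori] at h1

/-- The adjacency lemma: the labels on both sides of an arc at a point of no other arc form a
listed transition. -/
lemma adj {k : ℕ} {w : ℝ × ℝ} (hon : w ∈ A k) (hoff : ∀ j < 9, j ≠ k → w ∉ A j)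
    (hv : ∀ i < 18, w ≠ P i) {L₁ L₂ : ℕ} (h1 : w ∈ X.R L₁) (h2 : w ∈ X.R L₂)
    (hsame : L₁ = L₂ → X.R L₁ ∈ 𝓝 w) (hcr : ∀ i, 18 ≤ i → i < 54 → ∃ k' l', k' < 9 ∧ l' < 9 ∧
      k' ≠ l' ∧ P i ∈ A k' ∧ P i ∈ A l') : (k, L₁, L₂) ∈ trL := by
  obtain ⟨a, b, hab', hseg⟩ := hon
  have hab : (a, b, k) ∈ realL := real_iff.mpr (Or.inl hab')
  obtain ⟨la, lb, -⟩ := real_lt hab
  have hvtx : ∀ i < 54, w ≠ P i := by
    intro i hi he
    by_cases h18 : i < 18
    · exact hv i h18 he
    · obtain ⟨k', l', hk', hl', hne, m1, m2⟩ := hcr i (by omega) hi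
      rw [← he] at m1 m2
      by_cases h : k' = k
      · exact hoff l' hl' (fun h' => hne (h.trans h'.symm)) m2
      · exact hoff k' hk' h m1
  have ha := hvtx a la
  have hb := hvtx b lb
  have := List.all_eq_true.mp c_tr _ hab
  simp only [List.any_eq_true, Bool.and_eq_true, Nat.beq_eq, Prod.exists,
    List.contains_iff_mem] at this
  obtain ⟨x1, x2, c, l1, hc, ⟨rfl, rfl⟩, y1, y2, d, l2, hd, ⟨rfl, rfl⟩, t1, t2⟩ := this
  have hC : Cell y2 y1 c := ⟨_, hc⟩
  have hD : Cell y1 y2 d := ⟨_, hd⟩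
  have hN := nhds_tt (cell_pos' hc) (cell_pos' hd) hseg ha hb
  have mC : w ∈ tri (P y2) (P y1) (P c) := by
    obtain ⟨k1, k2⟩ := seg_ori_pos (cell_pos' hc) hseg ha hb
    exact ⟨(seg_ori hseg).ge, k1.le, k2.le⟩
  have mD : w ∈ tri (P y1) (P y2) (P d) := by
    have hseg' : w ∈ segment ℝ (P y1) (P y2) := by rw [segment_symm]; exact hseg
    obtain ⟨k1, k2⟩ := seg_ori_pos (cell_pos' hd) hseg' hb ha
    exact ⟨(seg_ori hseg').ge, k1.le, k2.le⟩
  have cand : ∀ L, w ∈ X.R L → L = l1 ∨ L = l2 := by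
    intro L hL
    rcases X.cell_near hL hN with ⟨a', b', c', hc', hl', q, hq1, hq2⟩ | ⟨-, a', b', c', ho, hm⟩
    · rcases hq1 with hq1 | hq1
      · left
        have := X.label_of_open hc' hq2 (X.tri_sub_R (a := y2) (b := y1) (c := c) hC hq1)
        have h3 : lab y2 y1 c = l1 := lab_eq hc
        rw [hl'] at this
        rw [this]; exact h3
      · right
        have := X.label_of_open hc' hq2 (X.tri_sub_R (a := y1) (b := y2) (c := d) hD hq1)
        have h3 : lab y1 y2 d = l2 := lab_eq hd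
        rw [hl'] at this
        rw [this]; exact h3
    · exact absurd hm (side_inside hab hseg ho)
  by_cases he : L₁ = L₂
  · have hn := hsame he
    have g1 : lab y2 y1 c = L₁ := X.label_of_nhds (a := y2) (b := y1) (c := c) hC mC hn
    have g2 : lab y1 y2 d = L₁ := X.label_of_nhds (a := y1) (b := y2) (c := d) hD mD hn
    rw [lab_eq hc] at g1
    rw [lab_eq hd] at g2
    subst he g1
    subst g2
    exact t1
  · rcases cand _ h1 with rfl | rfl <;> rcases cand _ h2 with rfl | rfl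
    · exact absurd rfl he
    · exact t1
    · exact t2
    · exact absurd rfl he

end Pool.Agent.R30.Mat
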