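import Pool.Agent.R30.Mat.Check3
import Pool.Agent.R30.Mat.Pic2
import Pool.Agent.R30.Thr.Final

set_option autoImplicit false

/-! The nine arcs: they are arcs, and any two meet in one point, where they cross. -/

namespace Pool.Agent.R30.Mat

open Set Topology Pool.Agent.R30.C4
open Pool.Agent.R30.Thr (IsArc CrossesAt isArc_segment isArc_union crossesAt_of_homeo)

attribute [local irreducible] px py PX PY baseL sideL pathL crossL trL faceL oL BL NKL

lemma P_inj {i j : ℕ} (hi : i < 57) (hj : j < 57) (h : P i = P j) : i = j := by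
  have h1 := congrArg Prod.fst h
  have h2 := congrArg Prod.snd h
  simp only [P, Nat.cast_inj] at h1 h2
  have := List.all_eq_true.mp (List.all_eq_true.mp c_inj i (List.mem_range.mpr hi)) j
    (List.mem_range.mpr hj)
  simp only [Bool.or_eq_true, Nat.beq_eq, Bool.not_eq_true', Bool.and_eq_false_iff] at this
  rcases this with h | h | h
  · exact h
  · rw [h1, Nat.beq_refl] at h; exact absurd h (by simp)
  · rw [h2, Nat.beq_refl] at h; exact absurd h (by simp)

lemma seg_share {v a b p : ℝ × ℝ} (h : ori v a b ≠ 0) (h1 : p ∈ segment ℝ v a)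
    (h2 : p ∈ segment ℝ v b) : p = v := by
  have e1 := seg_ori h1
  obtain ⟨s, t, hs, ht, hst, rfl⟩ := h2
  have : s = 1 - t := by linarith
  subst this
  rw [show ori v a ((1 - t) • v + t • b) = t * ori v a b by
    simp only [ori, Prod.fst_add, Prod.smul_fst, smul_eq_mul, Prod.snd_add, Prod.smul_snd]
    ring] at e1
  have : t = 0 := (mul_eq_zero.mp e1).resolve_right h
  subst this
  simp

lemma nc_ne {v a b : ℕ} (h : nc v a b = true) : ori (P v) (P a) (P b) ≠ 0 := by
  unfold nc at h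
  rw [Bool.or_eq_true] at h
  rcases h with h | h
  · exact ((pos_iff _ _ _).mp h).ne'
  · have := (pos_iff _ _ _).mp h
    have e : ori (P v) (P a) (P b) = - ori (P v) (P b) (P a) := by simp only [ori]; ring
    rw [e]; exact (neg_neg_of_pos this).ne

lemma dsj_false {a b c d : ℕ} (h : dsj a b c d = true) {p : ℝ × ℝ}
    (h1 : p ∈ segment ℝ (P a) (P b)) (h2 : p ∈ segment ℝ (P c) (P d)) : False := by
  have h1' : p ∈ segment ℝ (P b) (P a) := by rw [segment_symm]; exact h1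
  have h2' : p ∈ segment ℝ (P d) (P c) := by rw [segment_symm]; exact h2
  simp only [dsj, Bool.or_eq_true, Bool.and_eq_true, pos_iff] at h
  rcases h with ((⟨k1, k2⟩ | ⟨k1, k2⟩) | ⟨k1, k2⟩) | ⟨k1, k2⟩
  · exact (seg_pos k1 k2 h2).ne' (seg_ori h1)
  · exact (seg_pos k1 k2 h2).ne' (seg_ori h1')
  · exact (seg_pos k1 k2 h1).ne' (seg_ori h2)
  · exact (seg_pos k1 k2 h1).ne' (seg_ori h2')

lemma side_lt {a b k : ℕ} (h : (a, b, k) ∈ sideL) : a < 54 ∧ b < 54 ∧ k < 9 :=
  real_lt (real_iff.mpr (Or.inl h))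

/-- two different sides meet at most in a common end -/
lemma side_inter {a b k c d l : ℕ} (h : (a, b, k) ∈ sideL) (h' : (c, d, l) ∈ sideL)
    (hne : ¬ (a = c ∧ b = d)) {p : ℝ × ℝ} (hp : p ∈ segment ℝ (P a) (P b))
    (hp' : p ∈ segment ℝ (P c) (P d)) :
    ∃ i, p = P i ∧ (i = a ∨ i = b) ∧ (i = c ∨ i = d) := by
  have key := List.all_eq_true.mp (List.all_eq_true.mp c_side _ h) _ h'
  simp only [Bool.or_eq_true, Bool.and_eq_true, Nat.beq_eq, okk] at key
  have h1' : p ∈ segment ℝ (P b) (P a) := by rw [segment_symm]; exact hp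
  have h2' : p ∈ segment ℝ (P d) (P c) := by rw [segment_symm]; exact hp'
  rcases key with key | (((key | ⟨rfl, key⟩) | ⟨rfl, key⟩) | ⟨rfl, key⟩) | ⟨rfl, key⟩
  · exact absurd key hne
  · exact (dsj_false key hp hp').elim
  · exact ⟨a, seg_share (nc_ne key) hp hp', Or.inl rfl, Or.inl rfl⟩
  · exact ⟨a, seg_share (nc_ne key) hp h2', Or.inl rfl, Or.inr rfl⟩
  · exact ⟨b, seg_share (nc_ne key) h1' hp', Or.inr rfl, Or.inl rfl⟩
  · exact ⟨b, seg_share (nc_ne key) h1' h2', Or.inr rfl, Or.inr rfl⟩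

/-- a vertex on a side is one of its ends -/
lemma vertex_side {a b k i : ℕ} (h : (a, b, k) ∈ sideL) (hi : i < 54)
    (hp : P i ∈ segment ℝ (P a) (P b)) : i = a ∨ i = b := by
  obtain ⟨la, lb, -⟩ := side_lt h
  have := List.all_eq_true.mp c_real i (List.mem_range.mpr hi)
  simp only [List.any_eq_true, Nat.beq_eq, Prod.exists] at this
  obtain ⟨c, d, l, hr, rfl⟩ := this
  obtain ⟨-, ld, -⟩ := real_lt hr
  rcases real_iff.mp hr with hs | hs
  · by_cases he : a = c ∧ b = d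
    · exact Or.inl he.1.symm
    · obtain ⟨i, e, h1, -⟩ := side_inter h hs he hp (left_mem_segment _ _ _)
      have : c = i := by
        apply P_inj (by omega) _ e
        rcases h1 with rfl | rfl <;> omega
      subst this; exact h1
  · by_cases he : a = d ∧ b = c
    · exact Or.inr he.2.symm
    · obtain ⟨i, e, h1, -⟩ := side_inter h hs he hp (right_mem_segment _ _ _)
      have : c = i := by
        apply P_inj (by omega) _ e
        rcases h1 with rfl | rfl <;> omega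
      subst this; exact h1

/-! ### paths -/

lemma side_pairs {a b k : ℕ} : (a, b, k) ∈ sideL ↔ k < 9 ∧ (a, b) ∈ pairs (pathL.getD k []) := by
  have h := c_pairs
  constructor
  · intro hm
    rw [h] at hm
    simp only [List.mem_flatMap, List.mem_range, List.mem_map, Prod.exists, Prod.mk.injEq] at hm
    obtain ⟨k', hk', a', b', hp, rfl, rfl, rfl⟩ := hm
    exact ⟨hk', hp⟩
  · rintro ⟨hk, hp⟩
    rw [h]
    simp only [List.mem_flatMap, List.mem_range, List.mem_map, Prod.exists, Prod.mk.injEq]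
    exact ⟨k, hk, a, b, hp, rfl, rfl, rfl⟩

lemma pairs_mem : ∀ {l : List ℕ} {s : ℕ × ℕ}, s ∈ pairs l → s.1 ∈ l ∧ s.2 ∈ l
  | [], s, h => by simp [pairs] at h
  | [a], s, h => by simp [pairs] at h
  | a :: b :: l, s, h => by
    rw [pairs, List.mem_cons] at h
    rcases h with rfl | h
    · simp
    · obtain ⟨h1, h2⟩ := pairs_mem h
      exact ⟨List.mem_cons_of_mem _ h1, List.mem_cons_of_mem _ h2⟩

lemma isArc_list : ∀ (l : List ℕ) (a b : ℕ), (a :: b :: l).Nodup →
    (∀ s ∈ pairs (a :: b :: l), ∀ s' ∈ pairs (a :: b :: l), ¬ (s.1 = s'.1 ∧ s.2 = s'.2) →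
      ∀ p, p ∈ segment ℝ (P s.1) (P s.2) → p ∈ segment ℝ (P s'.1) (P s'.2) →
      ∃ i, p = P i ∧ (i = s.1 ∨ i = s.2) ∧ (i = s'.1 ∨ i = s'.2)) →
    (∀ s ∈ pairs (a :: b :: l), P s.1 ≠ P s.2) →
    IsArc {x | ∃ s ∈ pairs (a :: b :: l), x ∈ segment ℝ (P s.1) (P s.2)} (P a)
      (P ((a :: b :: l).getLast (by simp)))
  | [], a, b, _, _, hne => by
    have : {x | ∃ s ∈ pairs [a, b], x ∈ segment ℝ (P s.1) (P s.2)} = segment ℝ (P a) (P b) := by
      ext x; simp [pairs]
    rw [this]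
    exact isArc_segment (hne (a, b) (by simp [pairs]))
  | c :: l, a, b, hnd, hs, hne => by
    have hsub : ∀ s ∈ pairs (b :: c :: l), s ∈ pairs (a :: b :: c :: l) := fun s hs =>
      by rw [pairs]; exact List.mem_cons_of_mem _ hs
    have IH := isArc_list l b c (List.nodup_cons.mp hnd).2
      (fun s h1 s' h2 => hs s (hsub s h1) s' (hsub s' h2)) (fun s h => hne s (hsub s h))
    have e : {x | ∃ s ∈ pairs (a :: b :: c :: l), x ∈ segment ℝ (P s.1) (P s.2)} =
        segment ℝ (P a) (P b) ∪ {x | ∃ s ∈ pairs (b :: c :: l), x ∈ segment ℝ (P s.1) (P s.2)} := by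
      ext x
      rw [pairs]
      simp only [List.mem_cons, mem_ofPred_eq, mem_union]
      constructor
      · rintro ⟨s, rfl | h, hx⟩
        · exact Or.inl hx
        · exact Or.inr ⟨s, h, hx⟩
      · rintro (h | ⟨s, h, hx⟩)
        · exact ⟨_, Or.inl rfl, h⟩
        · exact ⟨s, Or.inr h, hx⟩
    rw [e]
    have hlast : (a :: b :: c :: l).getLast (by simp) = (b :: c :: l).getLast (by simp) := by
      rw [List.getLast_cons]
    rw [hlast]
    refine isArc_union (isArc_segment (hne (a, b) (by simp [pairs]))) IH ?_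
    rintro x hx ⟨s, hs', hx'⟩
    obtain ⟨m1, m2⟩ := pairs_mem hs'
    have hna := (List.nodup_cons.mp hnd).1
    obtain ⟨i, rfl, h1, h2⟩ := hs (a, b) (by simp [pairs]) s (hsub s hs')
      (fun h => hna (by rw [show a = s.1 from h.1]; exact m1)) x hx hx'
    rcases h1 with rfl | rfl
    · exfalso
      rcases h2 with h2 | h2
      · exact hna (by rw [h2]; exact m1)
      · exact hna (by rw [h2]; exact m2)
    · rfl

lemma A_eq {k : ℕ} (hk : k < 9) :
    A k = {x | ∃ s ∈ pairs (pathL.getD k []), x ∈ segment ℝ (P s.1) (P s.2)} := by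
  ext x
  simp only [A, mem_ofPred_eq, Prod.exists]
  constructor
  · rintro ⟨a, b, h, hx⟩; exact ⟨a, b, (side_pairs.mp h).2, hx⟩
  · rintro ⟨a, b, h, hx⟩; exact ⟨a, b, side_pairs.mpr ⟨hk, h⟩, hx⟩

theorem isArc_A {k : ℕ} (hk : k < 9) : IsArc (A k) (P (2 * k)) (P (2 * k + 1)) := by
  obtain ⟨h1, h2, h3⟩ := c_ends k hk
  have hnd := c_nodup k hk
  have hside : ∀ s, s ∈ pairs (pathL.getD k []) → (s.1, s.2, k) ∈ sideL := fun s hs =>
    side_pairs.mpr ⟨hk, hs⟩
  rw [A_eq hk]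
  generalize pathL.getD k [] = l at h1 h2 h3 hnd hside
  match l, h1, h2, h3, hnd, hside with
  | a :: b :: l, h1, h2, _, hnd, hside =>
    simp only [List.head?_cons, Option.some.injEq] at h1
    rw [List.getLast?_eq_getLast_of_ne_nil (by simp), Option.some.injEq] at h2
    rw [← h2, ← h1]
    refine isArc_list l a b hnd ?_ ?_
    · intro s hs s' hs' hne p hp hp'
      exact side_inter (hside s hs) (hside s' hs') hne hp hp'
    · intro s hs
      exact side_ne (real_iff.mpr (Or.inl (hside s hs)))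

/-! ### intersections -/

lemma A_inter {k l : ℕ} (hkl : k ≠ l) {p : ℝ × ℝ} (h1 : p ∈ A k) (h2 : p ∈ A l) :
    p = P (XX k l) := by
  obtain ⟨a, b, hs, hp⟩ := h1
  obtain ⟨c, d, hs', hp'⟩ := h2
  have hne : ¬ (a = c ∧ b = d) := by
    rintro ⟨rfl, rfl⟩
    have := List.all_eq_true.mp (List.all_eq_true.mp c_side2 _ hs) _ hs'
    simp only [Nat.beq_refl, Bool.and_self, Bool.not_true, Bool.false_or, Nat.beq_eq] at this
    exact hkl this
  obtain ⟨i, rfl, h1, h2⟩ := side_inter hs hs' hne hp hp'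
  have := List.all_eq_true.mp (List.all_eq_true.mp c_x _ hs) _ hs'
  simp only [Bool.or_eq_true, Nat.beq_eq, List.all_eq_true] at this
  rcases this with h | h
  · exact absurd h hkl
  · have := h i (by rcases h1 with rfl | rfl <;> simp)
    simp only [Bool.or_eq_true, Bool.not_eq_true', Bool.or_eq_false_iff, Nat.beq_eq] at this
    rcases this with h | h
    · exfalso
      rcases h2 with rfl | rfl
      · rw [Nat.beq_refl] at h; exact absurd h.1 (by simp)
      · rw [Nat.beq_refl] at h; exact absurd h.2 (by simp)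
    · rw [h]

/-- the sides of arc `k` at `v` -/
lemma star_spec {v k r s : ℕ} (h : star v k r s = true) :
    (∀ a b, (a, b, k) ∈ sideL → (a = v ∨ b = v) →
      ((a = v ∧ (b = r ∨ b = s)) ∨ (b = v ∧ (a = r ∨ a = s)))) ∧
    ((v, r, k) ∈ realL) ∧ ((v, s, k) ∈ realL) := by
  simp only [star, Bool.and_eq_true, List.all_eq_true, List.any_eq_true, Bool.or_eq_true,
    Bool.not_eq_true', Bool.or_eq_false_iff, Nat.beq_eq, Prod.forall, Prod.exists] at h
  obtain ⟨⟨h1, h2⟩, h3⟩ := h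
  refine ⟨?_, ?_, ?_⟩
  · intro a b hm hv
    rcases h1 a b k hm with (h | h) | h
    · rw [Nat.beq_refl] at h; exact absurd h (by simp)
    · exfalso
      rcases hv with rfl | rfl
      · rw [Nat.beq_refl] at h; exact absurd h.1 (by simp)
      · rw [Nat.beq_refl] at h; exact absurd h.2 (by simp)
    · exact h
  · obtain ⟨a, b, k', hm, rfl, ⟨rfl, rfl⟩ | ⟨rfl, rfl⟩⟩ := h2
    · exact real_iff.mpr (Or.inl hm)
    · exact real_iff.mpr (Or.inr hm)
  · obtain ⟨a, b, k', hm, rfl, ⟨rfl, rfl⟩ | ⟨rfl, rfl⟩⟩ := h3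
    · exact real_iff.mpr (Or.inl hm)
    · exact real_iff.mpr (Or.inr hm)

lemma star_k {z : ℕ × ℕ × ℕ × ℕ × ℕ × ℕ × ℕ × ℤ × ℤ} (hz : z ∈ crossL) :
    star z.1 z.2.1 z.2.2.2.1 z.2.2.2.2.2.1 = true ∧
    star z.1 z.2.2.1 z.2.2.2.2.1 z.2.2.2.2.2.2.1 = true := by
  have := List.all_eq_true.mp c_star _ hz
  rwa [Bool.and_eq_true] at this

theorem two_arcs : ∀ i, 18 ≤ i → i < 54 → ∃ k' l', k' < 9 ∧ l' < 9 ∧
    k' ≠ l' ∧ P i ∈ A k' ∧ P i ∈ A l' := by
  intro i h1 h2
  obtain ⟨z, hz, rfl⟩ := c_cov i h2 h1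
  obtain ⟨s1, s2⟩ := star_k hz
  obtain ⟨n1, n2, n3, -⟩ := c_xx z hz
  exact ⟨z.2.1, z.2.2.1, n2, n3, n1, mem_A (star_spec s1).2.1 (left_mem_segment _ _ _),
    mem_A (star_spec s2).2.1 (left_mem_segment _ _ _)⟩

lemma XX_mem {k l : ℕ} (hk : k < 9) (hl : l < 9) (hkl : k ≠ l) :
    P (XX k l) ∈ A k ∧ P (XX k l) ∈ A l := by
  rcases lt_or_gt_of_ne hkl with h | h
  · obtain ⟨z, hz, rfl, rfl⟩ := c_all k hk l hl h
    obtain ⟨s1, s2⟩ := star_k hz
    obtain ⟨n1, n2, n3, n4, n5, -⟩ := c_xx z hz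
    rw [n4]
    exact ⟨mem_A (star_spec s1).2.1 (left_mem_segment _ _ _),
      mem_A (star_spec s2).2.1 (left_mem_segment _ _ _)⟩
  · obtain ⟨z, hz, rfl, rfl⟩ := c_all l hl k hk h
    obtain ⟨s1, s2⟩ := star_k hz
    obtain ⟨n1, n2, n3, n4, n5, -⟩ := c_xx z hz
    rw [n5]
    exact ⟨mem_A (star_spec s2).2.1 (left_mem_segment _ _ _),
      mem_A (star_spec s1).2.1 (left_mem_segment _ _ _)⟩

theorem A_inter_eq {k l : ℕ} (hk : k < 9) (hl : l < 9) (hkl : k ≠ l) :
    A k ∩ A l = {P (XX k l)} := by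
  ext p
  simp only [mem_inter_iff, mem_singleton_iff]
  constructor
  · rintro ⟨h1, h2⟩; exact A_inter hkl h1 h2
  · rintro rfl; exact XX_mem hk hl hkl

/-- three arcs have no common point -/
lemma no_three {k l j : ℕ} (hk : k < 9) (hl : l < 9) (hj : j < 9) (h1 : k ≠ l) (h2 : k ≠ j)
    (h3 : l ≠ j) {p : ℝ × ℝ} (pk : p ∈ A k) (pl : p ∈ A l) (pj : p ∈ A j) : False := by
  have e1 := A_inter h1 pk pl
  have e2 := A_inter h2 pk pj
  have e3 := P_inj (by have := c_xlt k hk l hl h1; omega) (by have := c_xlt k hk j hj h2; omega)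
    (e1.symm.trans e2)
  rcases c_three k hk l hl j hj with (h | h | h) | h
  · exact h3 h
  · exact h1 h
  · exact h2 h
  · exact h e3

/-- ends on arcs -/
lemma end_on {i k : ℕ} (hi : i < 18) (h : P i ∈ A k) : i / 2 = k := by
  obtain ⟨a, b, hs, hp⟩ := h
  have h1 := vertex_side hs (by omega) hp
  have := List.all_eq_true.mp c_end2 _ hs
  simp only [List.all_eq_true, Bool.or_eq_true, Bool.not_eq_true', Nat.beq_eq] at this
  have h2 := this i (by rcases h1 with rfl | rfl <;> simp)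
  rcases h2 with h | h
  · exfalso
    have h3 : Nat.blt i 18 = true := by rw [Nat.blt_eq]; exact hi
    rw [h3] at h; exact absurd h (by simp)
  · exact h

lemma on_end {i : ℕ} (hi : i < 18) : P i ∈ A (i / 2) := by
  obtain ⟨⟨a, b, k⟩, hz, h1, h2⟩ := c_end3 i hi
  simp only at h1 h2
  subst h2
  rcases h1 with rfl | rfl
  · exact ⟨_, _, hz, left_mem_segment _ _ _⟩
  · exact ⟨_, _, hz, right_mem_segment _ _ _⟩

end Pool.Agent.R30.Mat
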