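import Pool.Agent.R30.Mat.Data

set_option autoImplicit false

/-! Kernel checks of the data. -/

namespace Pool.Agent.R30.Mat

/-- `a`, `b`, `c` are counterclockwise -/
def pos (a b c : ℕ) : Bool :=
  Nat.ble (Nat.succ (Nat.add (Nat.add (Nat.mul (py a) (px b)) (Nat.mul (py b) (px c)))
    (Nat.mul (py c) (px a))))
    (Nat.add (Nat.add (Nat.mul (px a) (py b)) (Nat.mul (px b) (py c))) (Nat.mul (px c) (py a)))

/-- rotations of the cells -/
def cellsL : List (ℕ × ℕ × ℕ × ℕ) :=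
  baseL ++ (baseL.map (fun x => (x.2.1, x.2.2.1, x.1, x.2.2.2)) ++
    baseL.map (fun x => (x.2.2.1, x.1, x.2.1, x.2.2.2)))

/-- the outer triangle -/
def outsL : List (ℕ × ℕ × ℕ) := [(54, 56, 55), (56, 55, 54), (55, 54, 56)]

/-- directed sides on edges -/
def realL : List (ℕ × ℕ × ℕ) := sideL ++ sideL.map (fun x => (x.2.1, x.1, x.2.2))

/-- consecutive pairs -/
def pairs : List ℕ → List (ℕ × ℕ)
  | a :: b :: l => (a, b) :: pairs (b :: l)
  | _ => []

/-- no cell corner of `x` and `y` on the wrong side -/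
def npos (a b c : ℕ) : Bool := !pos a b c

/-- the open cells `x` and `y` are separated by the line `a b`, `y` not on the left -/
def sepl (a b : ℕ) (y : ℕ × ℕ × ℕ × ℕ) : Bool := npos a b y.1 && npos a b y.2.1 && npos a b y.2.2.1

/-- separation of cells -/
def sepc (x y : ℕ × ℕ × ℕ × ℕ) : Bool :=
  sepl x.1 x.2.1 y || sepl x.2.1 x.2.2.1 y || sepl x.2.2.1 x.1 y ||
  sepl y.1 y.2.1 x || sepl y.2.1 y.2.2.1 x || sepl y.2.2.1 y.1 x

lemma c_pos : baseL.all (fun x => pos x.1 x.2.1 x.2.2.1) = true := by decide +kernel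
lemma c_opos : outsL.all (fun x => pos x.1 x.2.1 x.2.2) = true := by decide +kernel
lemma c_lt : baseL.all (fun x => Nat.blt x.1 57 && Nat.blt x.2.1 57 && Nat.blt x.2.2.1 57) = true := by
  decide +kernel
lemma c_mate : cellsL.all (fun x => cellsL.any (fun y => Nat.beq y.1 x.2.1 && Nat.beq y.2.1 x.1) ||
    outsL.any (fun y => Nat.beq y.1 x.1 && Nat.beq y.2.1 x.2.1)) = true := by decide +kernel
lemma c_omate : outsL.all (fun x => cellsL.any (fun y => Nat.beq y.1 x.1 && Nat.beq y.2.1 x.2.1)) =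
    true := by decide +kernel
lemma c_uniq : cellsL.all (fun x => cellsL.all (fun y => !(Nat.beq y.1 x.1 && Nat.beq y.2.1 x.2.1) ||
    (Nat.beq x.2.2.1 y.2.2.1 && Nat.beq x.2.2.2 y.2.2.2))) = true := by decide +kernel
lemma c_labmate : cellsL.all (fun x => cellsL.all (fun y =>
    !(Nat.beq y.1 x.2.1 && Nat.beq y.2.1 x.1) ||
    (Nat.beq x.2.2.2 y.2.2.2 || realL.any (fun z => Nat.beq z.1 x.1 && Nat.beq z.2.1 x.2.1)))) =
    true := by decide +kernel
lemma c_olabmate : cellsL.all (fun x => outsL.all (fun y =>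
    !(Nat.beq y.1 x.1 && Nat.beq y.2.1 x.2.1) || Nat.beq x.2.2.2 oL)) = true := by decide +kernel
lemma c_sep : baseL.all (fun x => baseL.all (fun y => Nat.beq x.2.2.2 y.2.2.2 || sepc x y)) =
    true := by decide +kernel
end Pool.Agent.R30.Mat
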