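import Pool.Agent.R30.Mat.Check

set_option autoImplicit false

/-! Kernel checks of the data, continued. -/

namespace Pool.Agent.R30.Mat

/-- `i` is a corner of the cell -/
def cor (i : ℕ) (x : ℕ × ℕ × ℕ × ℕ) : Bool := Nat.beq i x.1 || Nat.beq i x.2.1 || Nat.beq i x.2.2.1

/-- label at an end -/
def face (i : ℕ) : ℕ := faceL.getD i 0

/-- not collinear -/
def nc (v a b : ℕ) : Bool := pos v a b || pos v b a

/-- two segments are disjoint because one is on one side of the line of the other -/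
def dsj (a b c d : ℕ) : Bool :=
  (pos a b c && pos a b d) || (pos b a c && pos b a d) || (pos c d a && pos c d b) ||
    (pos d c a && pos d c b)

/-- two segments meet in at most a common end -/
def okk (a b c d : ℕ) : Bool :=
  dsj a b c d || (Nat.beq a c && nc a b d) || (Nat.beq a d && nc a b c) ||
    (Nat.beq b c && nc b a d) || (Nat.beq b d && nc b a c)

/-- crossing of two edges -/
def XX (k l : ℕ) : ℕ :=
  ((crossL.find? (fun z => (Nat.beq z.2.1 k && Nat.beq z.2.2.1 l) ||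
    (Nat.beq z.2.1 l && Nat.beq z.2.2.1 k))).map (fun z => z.1)).getD 0

lemma c_vtx : baseL.all (fun x => (List.range 57).all (fun i => cor i x || (pos x.2.1 x.1 i ||
    (pos x.2.2.1 x.2.1 i || pos x.1 x.2.2.1 i)))) = true := by decide +kernel
lemma c_face : baseL.all (fun x => (List.range 18).all (fun i => !cor i x ||
    Nat.beq x.2.2.2 (face i))) = true := by decide +kernel
lemma c_ovx : baseL.all (fun x => [54, 55, 56].all (fun i => !cor i x ||
    Nat.beq x.2.2.2 oL)) = true := by decide +kernel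
lemma c_oin : outsL.all (fun y => (List.range 54).all (fun i => pos y.1 y.2.1 i)) = true := by
  decide +kernel
lemma c_osep : outsL.all (fun y => baseL.all (fun x => npos y.2.1 y.1 x.1 &&
    (npos y.2.1 y.1 x.2.1 && (npos y.2.1 y.1 x.2.2.1 && (pos y.1 y.2.1 x.1 || (pos y.1 y.2.1 x.2.1 ||
      pos y.1 y.2.1 x.2.2.1)))))) = true := by
  decide +kernel
lemma c_real : (List.range 54).all (fun i => realL.any (fun z => Nat.beq z.1 i)) = true := by
  decide +kernel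
lemma c_rlt : realL.all (fun z => Nat.blt z.1 54 && Nat.blt z.2.2 9) = true := by decide +kernel
lemma c_tr : realL.all (fun z => cellsL.any (fun x => (Nat.beq x.1 z.1 && Nat.beq x.2.1 z.2.1) &&
    cellsL.any (fun y => (Nat.beq y.1 z.2.1 && Nat.beq y.2.1 z.1) &&
      (trL.contains (z.2.2, x.2.2.2, y.2.2.2) && trL.contains (z.2.2, y.2.2.2, x.2.2.2))))) =
    true := by decide +kernel
lemma c_side : sideL.all (fun x => sideL.all (fun y => (Nat.beq x.1 y.1 && Nat.beq x.2.1 y.2.1) ||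
    okk x.1 x.2.1 y.1 y.2.1)) = true := by decide +kernel
lemma c_side2 : sideL.all (fun x => sideL.all (fun y => !(Nat.beq x.1 y.1 && Nat.beq x.2.1 y.2.1) ||
    Nat.beq x.2.2 y.2.2)) = true := by decide +kernel
lemma c_x : sideL.all (fun x => sideL.all (fun y => Nat.beq x.2.2 y.2.2 ||
    [x.1, x.2.1].all (fun i => !(Nat.beq i y.1 || Nat.beq i y.2.1) ||
      Nat.beq i (XX x.2.2 y.2.2)))) = true := by decide +kernel
lemma c_inj : (List.range 57).all (fun i => (List.range 57).all (fun j => Nat.beq i j ||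
    !(Nat.beq (px i) (px j) && Nat.beq (py i) (py j)))) = true := by decide +kernel
lemma c_pairs : sideL = (List.range 9).flatMap (fun k =>
    (pairs (pathL.getD k [])).map (fun s => (s.1, s.2, k))) := by decide +kernel
lemma c_nodup : ∀ k < 9, (pathL.getD k []).Nodup := by decide +kernel
lemma c_ends : ∀ k < 9, (pathL.getD k []).head? = some (2 * k) ∧
    (pathL.getD k []).getLast? = some (2 * k + 1) ∧ 2 ≤ (pathL.getD k []).length := by
  decide +kernel
lemma c_end2 : sideL.all (fun x => [x.1, x.2.1].all (fun i => !(Nat.blt i 18) ||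
    Nat.beq (Nat.div i 2) x.2.2)) = true := by decide +kernel

/-- the sides of edge `z.2.2` at `v` go to `r` or `s` only, and both occur -/
def star (v k r s : ℕ) : Bool :=
  (sideL.all (fun x => !(Nat.beq x.2.2 k) || !(Nat.beq x.1 v || Nat.beq x.2.1 v) ||
    ((Nat.beq x.1 v && (Nat.beq x.2.1 r || Nat.beq x.2.1 s)) ||
      (Nat.beq x.2.1 v && (Nat.beq x.1 r || Nat.beq x.1 s))))) &&
  (sideL.any (fun x => Nat.beq x.2.2 k && ((Nat.beq x.1 v && Nat.beq x.2.1 r) ||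
    (Nat.beq x.1 r && Nat.beq x.2.1 v)))) &&
  (sideL.any (fun x => Nat.beq x.2.2 k && ((Nat.beq x.1 v && Nat.beq x.2.1 s) ||
    (Nat.beq x.1 s && Nat.beq x.2.1 v))))

lemma c_star : crossL.all (fun z => star z.1 z.2.1 z.2.2.2.1 z.2.2.2.2.2.1 &&
    star z.1 z.2.2.1 z.2.2.2.2.1 z.2.2.2.2.2.2.1) = true := by decide +kernel

/-- value of the linear form -/
def hz (h1 h2 : ℤ) (v r : ℕ) : ℤ := h1 * ((px r : ℤ) - px v) + h2 * ((py r : ℤ) - py v)

lemma c_form : ∀ z ∈ crossL, ∀ v k l r0 r1 r2 r3 h1 h2, z = (v, k, l, r0, r1, r2, r3, h1, h2) →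
    0 < hz h1 h2 v r1 ∧ hz h1 h2 v r3 < 0 ∧ (0 ≤ hz h1 h2 v r0 → pos v r0 r1 = true) ∧
    (hz h1 h2 v r0 < 0 → pos v r3 r0 = true) ∧ (0 ≤ hz h1 h2 v r2 → pos v r1 r2 = true) ∧
    (hz h1 h2 v r2 < 0 → pos v r2 r3 = true) := by
  have h : ∀ z ∈ crossL,
    0 < hz z.2.2.2.2.2.2.2.1 z.2.2.2.2.2.2.2.2 z.1 z.2.2.2.2.1 ∧
    hz z.2.2.2.2.2.2.2.1 z.2.2.2.2.2.2.2.2 z.1 z.2.2.2.2.2.2.1 < 0 ∧
    (0 ≤ hz z.2.2.2.2.2.2.2.1 z.2.2.2.2.2.2.2.2 z.1 z.2.2.2.1 →
      pos z.1 z.2.2.2.1 z.2.2.2.2.1 = true) ∧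
    (hz z.2.2.2.2.2.2.2.1 z.2.2.2.2.2.2.2.2 z.1 z.2.2.2.1 < 0 →
      pos z.1 z.2.2.2.2.2.2.1 z.2.2.2.1 = true) ∧
    (0 ≤ hz z.2.2.2.2.2.2.2.1 z.2.2.2.2.2.2.2.2 z.1 z.2.2.2.2.2.1 →
      pos z.1 z.2.2.2.2.1 z.2.2.2.2.2.1 = true) ∧
    (hz z.2.2.2.2.2.2.2.1 z.2.2.2.2.2.2.2.2 z.1 z.2.2.2.2.2.1 < 0 →
      pos z.1 z.2.2.2.2.2.1 z.2.2.2.2.2.2.1 = true) := by decide +kernel
  rintro z hz v k l r0 r1 r2 r3 h1 h2 rfl
  exact h _ hz

lemma c_all : ∀ k < 9, ∀ l < 9, k < l → ∃ z ∈ crossL, z.2.1 = k ∧ z.2.2.1 = l := by decide +kernel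
lemma c_xx : ∀ z ∈ crossL, z.2.1 ≠ z.2.2.1 ∧ z.2.1 < 9 ∧ z.2.2.1 < 9 ∧ XX z.2.1 z.2.2.1 = z.1 ∧
    XX z.2.2.1 z.2.1 = z.1 ∧ 18 ≤ z.1 := by decide +kernel

/-- closed set of states for the start `u` -/
def BB (u : ℕ) : ℕ := BL.getD u 0
/-- masks without bit `k` -/
def NK (k : ℕ) : ℕ := NKL.getD k 0

/-- states after crossing `k` from `f` to `g` -/
def stp (B k f g : ℕ) : ℕ :=
  Nat.shiftLeft (Nat.land (Nat.shiftRight B (Nat.mul 512 f)) (NK k))
    (Nat.add (Nat.mul 512 g) (Nat.pow 2 k))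

lemma c_start : ∀ u < 18, (BB u).testBit (512 * face u) = true := by decide +kernel
lemma c_closed : (List.range 18).all (fun u => trL.all (fun z => Nat.beq z.1 (Nat.div u 2) ||
    Nat.beq (Nat.land (stp (BB u) z.1 z.2.1 z.2.2) (BB u)) (stp (BB u) z.1 z.2.1 z.2.2))) =
    true := by decide +kernel
lemma c_no : ∀ u < 18, ∀ v < 18, u / 2 ≠ v / 2 →
    (BB u).testBit (512 * face v + (511 - 2 ^ (u / 2) - 2 ^ (v / 2))) = false := by decide +kernel
lemma c_mask : (List.range 512).all (fun m => (List.range 9).all (fun k => Nat.testBit m k ||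
    ((NK k).testBit m && (Nat.beq (Nat.lor m (Nat.pow 2 k)) (Nat.add m (Nat.pow 2 k)) &&
      Nat.blt (Nat.add m (Nat.pow 2 k)) 512)))) = true := by decide +kernel
lemma c_full : ∀ a < 9, ∀ b < 9, a ≠ b → ∀ k < 9,
    (511 - 2 ^ a - 2 ^ b).testBit k = (decide (k ≠ a) && decide (k ≠ b)) := by decide +kernel

end Pool.Agent.R30.Mat
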