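import Pool.Agent.R30.Mat.Check2

set_option autoImplicit false

/-! Kernel checks of the data, continued. -/

namespace Pool.Agent.R30.Mat

lemma c_cov : ∀ i < 54, 18 ≤ i → ∃ z ∈ crossL, z.1 = i := by decide +kernel
lemma c_three : ∀ k < 9, ∀ l < 9, ∀ j < 9, (l = j ∨ k = l ∨ k = j) ∨ XX k l ≠ XX k j := by
  decide +kernel
lemma c_xlt : ∀ k < 9, ∀ l < 9, k ≠ l → XX k l < 54 ∧ 18 ≤ XX k l := by decide +kernel
lemma c_end3 : ∀ i < 18, ∃ z ∈ sideL, (z.1 = i ∨ z.2.1 = i) ∧ z.2.2 = i / 2 := by decide +kernel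

end Pool.Agent.R30.Mat
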