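import Pool.Agent.R30.Mat.Pic2

set_option autoImplicit false

/-! How labels change when a curve crosses one arc or two arcs at the same point. -/

namespace Pool.Agent.R30.Mat

open Set Topology Pool.Agent.R30.C4 Pool.Agent.R30.Thr

attribute [local irreducible] px py PX PY baseL sideL pathL crossL trL faceL oL BL NKL

/-- every inner point of the picture that is a vertex and not an end is on two arcs -/
def TwoArcs : Prop := ∀ i, 18 ≤ i → i < 54 → ∃ k' l', k' < 9 ∧ l' < 9 ∧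
  k' ≠ l' ∧ P i ∈ A k' ∧ P i ∈ A l'

/-- Crossing one arc. -/
lemma cross_one (hcr : TwoArcs) {γ : ℝ → ℝ × ℝ} (hcont : ContinuousOn γ (Icc 0 1))
    (hinj : InjOn γ (Icc 0 1))
    {k : ℕ} {t₀ δ : ℝ} (ht : t₀ ∈ Ioo (0 : ℝ) 1) (hδ : 0 < δ)
    (hon : γ t₀ ∈ A k) (hoff : ∀ j < 9, j ≠ k → γ t₀ ∉ A j) (hvert : ∀ w < 18, γ t₀ ≠ P w)
    (hx : CrossesAt (A k) (γ '' Icc 0 1) (γ t₀)) {L₁ L₂ : ℕ}
    (h1 : ∀ t ∈ Icc (0 : ℝ) 1, t < t₀ → t₀ - t < δ → γ t ∈ X.R L₁)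
    (h2 : ∀ t ∈ Icc (0 : ℝ) 1, t₀ < t → t - t₀ < δ → γ t ∈ X.R L₂)
    (hp1 : γ t₀ ∈ X.R L₁) (hp2 : γ t₀ ∈ X.R L₂) : (k, L₁, L₂) ∈ trL := by
  refine adj hon hoff hvert hp1 hp2 ?_ hcr
  rintro rfl
  have hU : (⋂ j ∈ ({j | j < 9 ∧ j ≠ k} : Set ℕ), (A j)ᶜ) ∈ 𝓝 (γ t₀) := by
    have hfin : ({j | j < 9 ∧ j ≠ k} : Set ℕ).Finite :=
      (Set.finite_lt_nat 9).subset fun j hj => hj.1
    rw [Filter.biInter_mem hfin]
    intro j hj
    exact (isClosed_A j).isOpen_compl.mem_nhds (hoff j hj.1 hj.2)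
  refine nhds_of_cross hcont hinj ht hδ hx (X.isClosed_R _) hU ?_ ?_
  · intro t ht1 ht2 ht3
    rcases lt_or_gt_of_ne ht3 with h | h
    · apply h1 t ht1 h
      rw [abs_sub_comm, abs_of_pos (by linarith)] at ht2; exact ht2
    · apply h2 t ht1 h
      rw [abs_of_pos (by linarith)] at ht2; exact ht2
  · intro C hC hCU hCA hne
    refine const' hC ?_ hne
    intro p hp j hj hpj
    by_cases h : j = k
    · subst h; exact Set.disjoint_left.mp hCA hp hpj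
    · have := hCU hp
      simp only [mem_iInter, mem_compl_iff, mem_ofPred_eq, and_imp] at this
      exact this j hj h hpj

/-- the open square -/
def Sq (r : ℝ) : Set (ℝ × ℝ) := {z | -r < z.1 ∧ z.1 < r ∧ -r < z.2 ∧ z.2 < r}

lemma isOpen_Sq (r : ℝ) : IsOpen (Sq r) := by
  have : Sq r = Ioo (-r) r ×ˢ Ioo (-r) r := by
    ext q; simp [Sq, and_assoc]
  rw [this]
  exact isOpen_Ioo.prod isOpen_Ioo

lemma convex_Sq (r : ℝ) : Convex ℝ (Sq r) := by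
  have : Sq r = Ioo (-r) r ×ˢ Ioo (-r) r := by
    ext q; simp [Sq, and_assoc]
  rw [this]
  exact (convex_Ioo _ _).prod (convex_Ioo _ _)

lemma Sq_ball (r : ℝ) : Sq r ⊆ Metric.ball ((0, 0) : ℝ × ℝ) r := by
  rintro ⟨x, y⟩ ⟨h1, h2, h3, h4⟩
  rw [Metric.mem_ball, Prod.dist_eq]
  simp only [Real.dist_eq, sub_zero]
  exact max_lt (abs_lt.mpr ⟨h1, h2⟩) (abs_lt.mpr ⟨h3, h4⟩)

/-- one quarter of the square -/
def Qd (r s1 s2 : ℝ) : Set (ℝ × ℝ) := {z | z ∈ Sq r ∧ 0 < s1 * z.1 ∧ 0 < s2 * z.2}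

lemma convex_Qd (r s1 s2 : ℝ) : Convex ℝ (Qd r s1 s2) := by
  have h1 : Convex ℝ {z : ℝ × ℝ | 0 < s1 * z.1} :=
    convex_halfSpace_gt (by constructor <;> intros <;> simp <;> ring) 0
  have h2 : Convex ℝ {z : ℝ × ℝ | 0 < s2 * z.2} :=
    convex_halfSpace_gt (by constructor <;> intros <;> simp <;> ring) 0
  exact (convex_Sq r).inter (h1.inter h2)

lemma Qd_sub {r s1 s2 : ℝ} : Qd r s1 s2 ⊆ Sq r := fun _ h => h.1

/-- points of the axis are limits of points of the quarter -/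
lemma axis_closure {r s1 s2 : ℝ} (hs2 : s2 = 1 ∨ s2 = -1) {z : ℝ × ℝ} (hz : z ∈ Sq r)
    (h1 : 0 < s1 * z.1) (h2 : z.2 = 0) : z ∈ closure (Qd r s1 s2) := by
  have hr : 0 < r := by
    have := hz.1.trans hz.2.1; linarith
  rw [Metric.mem_closure_iff]
  intro ε hε
  have hpos : 0 < min ε r / 2 := by positivity
  refine ⟨(z.1, s2 * (min ε r / 2)), ⟨⟨hz.1, hz.2.1, ?_, ?_⟩, h1, ?_⟩, ?_⟩
  · have := min_le_right ε r
    rcases hs2 with rfl | rfl <;> simp only <;> linarith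
  · have := min_le_right ε r
    rcases hs2 with rfl | rfl <;> simp only <;> linarith
  · simp only
    rcases hs2 with rfl | rfl <;> linarith
  · rw [Prod.dist_eq, h2]
    simp only [dist_self, Real.dist_eq, zero_sub, abs_neg]
    have e : |s2 * (min ε r / 2)| = min ε r / 2 := by
      rcases hs2 with rfl | rfl
      · rw [one_mul, abs_of_pos hpos]
      · rw [neg_one_mul, abs_neg, abs_of_pos hpos]
    rw [e, max_eq_right hpos.le]
    have := min_le_left ε r; linarith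

/-- transition between two neighbouring quarters -/
lemma quad_adj (hcr : TwoArcs) {g : ℝ × ℝ → ℝ × ℝ} {r : ℝ} (hr : 0 < r) {k l : ℕ}
    (gc : ContinuousOn g (Sq r)) (go : ∀ O ⊆ Sq r, IsOpen O → IsOpen (g '' O))
    (gk : ∀ z ∈ Sq r, g z ∈ A k ↔ z.2 = 0) (gl : ∀ z ∈ Sq r, g z ∈ A l ↔ z.1 = 0)
    (gj : ∀ z ∈ Sq r, ∀ j < 9, j ≠ k → j ≠ l → g z ∉ A j)
    (gv : ∀ z ∈ Sq r, ∀ i < 18, g z ≠ P i) {s1 s2 : ℝ} (hs1 : s1 = 1 ∨ s1 = -1)
    (hs2 : s2 = 1 ∨ s2 = -1) {L₁ L₂ : ℕ} (h1 : g '' Qd r s1 s2 ⊆ X.R L₁)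
    (h2 : g '' Qd r s1 (-s2) ⊆ X.R L₂) : (k, L₁, L₂) ∈ trL := by
  have hs2' : -s2 = 1 ∨ -s2 = -1 := by rcases hs2 with rfl | rfl <;> simp
  have hcl : ∀ s L, (s = 1 ∨ s = -1) → g '' Qd r s1 s ⊆ X.R L → ∀ z ∈ Sq r, 0 < s1 * z.1 →
      z.2 = 0 → g z ∈ X.R L := by
    intro s L hs hsub z hz hz1 hz2
    have hcz : ContinuousAt g z := gc.continuousAt ((isOpen_Sq r).mem_nhds hz)
    have := hcz.continuousWithinAt.mem_closure_image (axis_closure hs hz hz1 hz2)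
    exact closure_minimal hsub (X.isClosed_R L) this
  set w0 : ℝ × ℝ := (s1 * (r / 2), 0) with hw0
  have hw0m : w0 ∈ Sq r := by
    rw [hw0]
    rcases hs1 with rfl | rfl <;> refine ⟨?_, ?_, ?_, ?_⟩ <;> simp only <;> linarith
  have hw01 : 0 < s1 * w0.1 := by
    rw [hw0]
    rcases hs1 with rfl | rfl <;> simp only <;> linarith
  have hw02 : w0.2 = 0 := rfl
  refine adj (w := g w0) ((gk _ hw0m).mpr hw02) ?_ (gv _ hw0m) (hcl s2 L₁ hs2 h1 _ hw0m hw01 hw02)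
    (hcl (-s2) L₂ hs2' h2 _ hw0m hw01 hw02) ?_ hcr
  · intro j hj hjk
    by_cases hjl : j = l
    · subst hjl
      intro hm
      have := (gl _ hw0m).mp hm
      rw [this] at hw01
      simp at hw01
    · exact gj _ hw0m j hj hjk hjl
  · rintro rfl
    have hO : IsOpen (Sq r ∩ {z : ℝ × ℝ | 0 < s1 * z.1}) :=
      (isOpen_Sq r).inter (isOpen_lt continuous_const (by fun_prop))
    refine Filter.mem_of_superset ((go _ inter_subset_left hO).mem_nhds ⟨w0, ⟨hw0m, hw01⟩, rfl⟩) ?_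
    rintro _ ⟨z, ⟨hz, hz1⟩, rfl⟩
    rcases lt_trichotomy (s2 * z.2) 0 with h | h | h
    · exact h2 ⟨z, ⟨hz, hz1, by linarith⟩, rfl⟩
    · have hz2 : z.2 = 0 := by
        rcases hs2 with rfl | rfl <;> linarith
      exact hcl s2 L₁ hs2 h1 z hz hz1 hz2
    · exact h1 ⟨z, ⟨hz, hz1, h⟩, rfl⟩

/-- a crossing curve does not stay on one side -/
lemma no_side {γ : ℝ → ℝ × ℝ} (hcont : ContinuousOn γ (Icc 0 1))
    (hinj : InjOn γ (Icc 0 1)) {B : Set (ℝ × ℝ)} {t₀ δ : ℝ} (ht : t₀ ∈ Ioo (0 : ℝ) 1)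
    (hδ : 0 < δ) (hx : CrossesAt B (γ '' Icc 0 1) (γ t₀))
    (φ : OpenPartialHomeomorph (ℝ × ℝ) (ℝ × ℝ)) (hp : γ t₀ ∈ φ.source)
    (hp0 : φ (γ t₀) = (0, 0)) (f : ℝ × ℝ → ℝ) (hf : Continuous f)
    (hneg : ∀ ε > 0, ∃ z : ℝ × ℝ, dist z (0, 0) < ε ∧ f z < 0)
    (hB : ∀ q ∈ φ.source, q ∈ B ↔ f (φ q) = 0)
    (hstay : ∀ t ∈ Icc (0 : ℝ) 1, |t - t₀| < δ → t ≠ t₀ → 0 < f (φ (γ t))) : False := by
  set R : Set (ℝ × ℝ) := {q | q ∈ φ.source → 0 ≤ f (φ q)} with hR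
  have hRo : IsOpen (φ.source ∩ φ ⁻¹' {z | f z < 0}) :=
    φ.isOpen_inter_preimage (isOpen_lt hf continuous_const)
  have hRc : IsClosed R := by
    rw [← isOpen_compl_iff]
    convert hRo using 1
    ext q
    simp only [hR, mem_compl_iff, mem_ofPred_eq, Classical.not_imp, not_le, mem_inter_iff,
      mem_preimage]
  have hPo : IsOpen (φ.source ∩ φ ⁻¹' {z | 0 < f z}) :=
    φ.isOpen_inter_preimage (isOpen_lt continuous_const hf)
  have hN := nhds_of_cross hcont hinj ht hδ hx hRc (φ.open_source.mem_nhds hp)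
    (fun t h1 h2 h3 _ => (hstay t h1 h2 h3).le) (by
      intro C hC hCU hCA hne
      have hsub : C ⊆ (φ.source ∩ φ ⁻¹' {z | 0 < f z}) ∪ (φ.source ∩ φ ⁻¹' {z | f z < 0}) := by
        intro q hq
        have hqU := hCU hq
        have h0 : f (φ q) ≠ 0 := fun h => Set.disjoint_left.mp hCA hq ((hB q hqU).mpr h)
        rcases lt_or_gt_of_ne h0 with h | h
        · exact Or.inr ⟨hqU, h⟩
        · exact Or.inl ⟨hqU, h⟩
      have := hC.subset_left_of_subset_union hPo hRo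
        (Set.disjoint_left.mpr fun q h1 h2 => lt_asymm (show 0 < f (φ q) from h1.2)
          (show f (φ q) < 0 from h2.2)) hsub
        (by
          obtain ⟨q, hq, hq'⟩ := hne
          refine ⟨q, hq, ?_⟩
          rcases hsub hq with h | h
          · exact h
          · exact absurd (hq' h.1) (not_le.mpr h.2))
      intro q hq _
      exact (this hq).2.le)
  -- contradiction near the origin
  have h0t : ((0, 0) : ℝ × ℝ) ∈ φ.target := by rw [← hp0]; exact φ.map_source hp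
  have hs0 : φ.symm (0, 0) = γ t₀ := by rw [← hp0, φ.left_inv hp]
  have hc : ContinuousAt φ.symm (0, 0) :=
    φ.continuousOn_symm.continuousAt (φ.open_target.mem_nhds h0t)
  have hN' : φ.symm ⁻¹' R ∩ φ.target ∈ 𝓝 ((0, 0) : ℝ × ℝ) := by
    refine Filter.inter_mem (hc.preimage_mem_nhds ?_) (φ.open_target.mem_nhds h0t)
    rw [hs0]; exact hN
  obtain ⟨ε, hε, hball⟩ := Metric.mem_nhds_iff.mp hN'
  obtain ⟨z, hz1, hz2⟩ := hneg ε hε
  obtain ⟨hz3, hz4⟩ := hball (Metric.mem_ball.mpr hz1)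
  have := hz3 (φ.map_target hz4)
  rw [φ.right_inv hz4] at this
  linarith

/-- a nonvanishing continuous function on an interval has a constant sign -/
lemma sign_const {f : ℝ → ℝ} {a b : ℝ} (hf : ContinuousOn f (Ioo a b))
    (h0 : ∀ t ∈ Ioo a b, f t ≠ 0) : ∃ s : ℝ, (s = 1 ∨ s = -1) ∧ ∀ t ∈ Ioo a b, 0 < s * f t := by
  by_cases h : ∀ t ∈ Ioo a b, 0 < f t
  · exact ⟨1, Or.inl rfl, fun t ht => by rw [one_mul]; exact h t ht⟩
  · push Not at h
    obtain ⟨x, hx, hx'⟩ := h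
    refine ⟨-1, Or.inr rfl, fun t ht => ?_⟩
    by_contra hcon
    push Not at hcon
    have h1 : 0 ≤ f t := by linarith
    have hpc : IsPreconnected (f '' Ioo a b) := isPreconnected_Ioo.image _ hf
    have := hpc.ordConnected.out ⟨x, hx, rfl⟩ ⟨t, ht, rfl⟩ ⟨hx', h1⟩
    obtain ⟨y, hy, hy'⟩ := this
    exact h0 y hy hy'

/-- Crossing two arcs at the same point. -/
lemma cross_two (hcr : TwoArcs) {γ : ℝ → ℝ × ℝ} (hcont : ContinuousOn γ (Icc 0 1))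
    (hinj : InjOn γ (Icc 0 1))
    {k l : ℕ} (hkl : k ≠ l) {t₀ δ : ℝ} (ht : t₀ ∈ Ioo (0 : ℝ) 1) (hδ : 0 < δ)
    (hoff : ∀ j < 9, j ≠ k → j ≠ l → γ t₀ ∉ A j) (hvert : ∀ w < 18, γ t₀ ≠ P w)
    (huk : ∀ t ∈ Icc (0 : ℝ) 1, γ t ∈ A k → t = t₀) (hul : ∀ t ∈ Icc (0 : ℝ) 1, γ t ∈ A l → t = t₀)
    (hxk : CrossesAt (A k) (γ '' Icc 0 1) (γ t₀)) (hxl : CrossesAt (A l) (γ '' Icc 0 1) (γ t₀))
    (hx : CrossesAt (A k) (A l) (γ t₀)) {L₁ L₂ : ℕ}
    (h1 : ∀ t ∈ Icc (0 : ℝ) 1, t < t₀ → t₀ - t < δ → γ t ∈ X.R L₁)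
    (h2 : ∀ t ∈ Icc (0 : ℝ) 1, t₀ < t → t - t₀ < δ → γ t ∈ X.R L₂) :
    ∃ M, (k, L₁, M) ∈ trL ∧ (l, M, L₂) ∈ trL := by
  obtain ⟨φ, hp, hp0, hq⟩ := hx
  -- an open set that avoids the other arcs and the ends
  set V : Set (ℝ × ℝ) := φ.source ∩ ((⋂ j ∈ ({j | j < 9 ∧ j ≠ k ∧ j ≠ l} : Set ℕ), (A j)ᶜ) ∩
    (P '' {i | i < 18})ᶜ) with hV
  have hfin : ({j | j < 9 ∧ j ≠ k ∧ j ≠ l} : Set ℕ).Finite :=
    (Set.finite_lt_nat 9).subset fun j hj => hj.1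
  have hVo : IsOpen V := by
    refine φ.open_source.inter (IsOpen.inter ?_ ?_)
    · exact hfin.isOpen_biInter fun j _ => (isClosed_A j).isOpen_compl
    · exact ((Set.finite_lt_nat 18).image P).isClosed.isOpen_compl
  have hVp : γ t₀ ∈ V := by
    refine ⟨hp, ?_, ?_⟩
    · simp only [mem_iInter, mem_compl_iff, mem_ofPred_eq, and_imp]
      exact hoff
    · rintro ⟨i, hi, he⟩
      exact hvert i hi he.symm
  have hVs : V ⊆ φ.source := inter_subset_left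
  have himg : IsOpen (φ '' V) := φ.isOpen_image_of_subset_source hVo hVs
  obtain ⟨r, hr, hball⟩ := Metric.isOpen_iff.mp himg (0, 0) ⟨_, hVp, hp0⟩
  have hSq : ∀ z ∈ Sq r, φ.symm z ∈ V ∧ z ∈ φ.target := by
    intro z hz
    obtain ⟨w, hw, rfl⟩ := hball (Sq_ball r hz)
    rw [φ.left_inv (hVs hw)]
    exact ⟨hw, φ.map_source (hVs hw)⟩
  have hSt : Sq r ⊆ φ.target := fun z hz => (hSq z hz).2
  have gc : ContinuousOn φ.symm (Sq r) := φ.continuousOn_symm.mono hSt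
  have go : ∀ O ⊆ Sq r, IsOpen O → IsOpen (φ.symm '' O) := fun O hO hOo =>
    φ.symm.isOpen_image_of_subset_source hOo (hO.trans hSt)
  have gk : ∀ z ∈ Sq r, φ.symm z ∈ A k ↔ z.2 = 0 := by
    intro z hz
    rw [(hq _ (hVs (hSq z hz).1)).1, φ.right_inv (hSt hz)]
  have gl : ∀ z ∈ Sq r, φ.symm z ∈ A l ↔ z.1 = 0 := by
    intro z hz
    rw [(hq _ (hVs (hSq z hz).1)).2, φ.right_inv (hSt hz)]
  have gj : ∀ z ∈ Sq r, ∀ j < 9, j ≠ k → j ≠ l → φ.symm z ∉ A j := by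
    intro z hz j hj hjk hjl
    have := (hSq z hz).1.2.1
    simp only [mem_iInter, mem_compl_iff, mem_ofPred_eq, and_imp] at this
    exact this j hj hjk hjl
  have gv : ∀ z ∈ Sq r, ∀ i < 18, φ.symm z ≠ P i := by
    intro z hz i hi he
    exact (hSq z hz).1.2.2 ⟨i, hi, he.symm⟩
  -- the curve near the point
  have h0S : ((0, 0) : ℝ × ℝ) ∈ Sq r := by refine ⟨?_, ?_, ?_, ?_⟩ <;> simp only <;> linarith
  have hNb : φ.symm '' Sq r ∈ 𝓝 (γ t₀) := by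
    refine (go _ subset_rfl (isOpen_Sq r)).mem_nhds ⟨(0, 0), h0S, ?_⟩
    rw [← hp0, φ.left_inv hp]
  have hct : ContinuousAt γ t₀ := hcont.continuousAt (Icc_mem_nhds ht.1 ht.2)
  obtain ⟨ε, hε, hεb⟩ := Metric.mem_nhds_iff.mp (hct.preimage_mem_nhds hNb)
  set η := min (min ε δ) (min t₀ (1 - t₀)) with hη
  have hη0 : 0 < η := lt_min (lt_min hε hδ) (lt_min ht.1 (by linarith [ht.2]))
  have hη1 : η ≤ ε := (min_le_left _ _).trans (min_le_left _ _)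
  have hη2 : η ≤ δ := (min_le_left _ _).trans (min_le_right _ _)
  have hη3 : η ≤ t₀ := (min_le_right _ _).trans (min_le_left _ _)
  have hη4 : η ≤ 1 - t₀ := (min_le_right _ _).trans (min_le_right _ _)
  have hnear : ∀ t, |t - t₀| < η → t ∈ Icc (0 : ℝ) 1 ∧ γ t ∈ φ.source ∧ φ (γ t) ∈ Sq r := by
    intro t htt
    have h := abs_lt.mp htt
    refine ⟨⟨by linarith, by linarith⟩, ?_⟩
    have hm : γ t ∈ φ.symm '' Sq r := hεb (by
      rw [Metric.mem_ball, Real.dist_eq]; linarith)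
    obtain ⟨z, hz, hz'⟩ := hm
    rw [← hz']
    exact ⟨hVs (hSq z hz).1, by rw [φ.right_inv (hSt hz)]; exact hz⟩
  have hback : ∀ t, |t - t₀| < η → φ.symm (φ (γ t)) = γ t := fun t htt =>
    φ.left_inv (hnear t htt).2.1
  have hz2 : ∀ t, |t - t₀| < η → t ≠ t₀ → (φ (γ t)).2 ≠ 0 := by
    intro t htt hne h
    obtain ⟨m1, m2, m3⟩ := hnear t htt
    exact hne (huk t m1 ((hq _ m2).1.mpr h))
  have hz1 : ∀ t, |t - t₀| < η → t ≠ t₀ → (φ (γ t)).1 ≠ 0 := by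
    intro t htt hne h
    obtain ⟨m1, m2, m3⟩ := hnear t htt
    exact hne (hul t m1 ((hq _ m2).2.mpr h))
  have hl : ∀ t ∈ Ioo (t₀ - η) t₀, |t - t₀| < η ∧ t ≠ t₀ := by
    intro t ht
    exact ⟨abs_lt.mpr ⟨by linarith [ht.1], by linarith [ht.2]⟩, ht.2.ne⟩
  have hrr : ∀ t ∈ Ioo t₀ (t₀ + η), |t - t₀| < η ∧ t ≠ t₀ := by
    intro t ht
    exact ⟨abs_lt.mpr ⟨by linarith [ht.1], by linarith [ht.2]⟩, ht.1.ne'⟩
  have hcφ : ContinuousOn (fun t => φ (γ t)) {t | |t - t₀| < η} := by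
    refine φ.continuousOn.comp (hcont.mono ?_) ?_
    · intro t ht; exact (hnear t ht).1
    · intro t ht; exact (hnear t ht).2.1
  obtain ⟨a1, ha1, ha1'⟩ := sign_const (f := fun t => (φ (γ t)).1) (a := t₀ - η) (b := t₀)
    ((continuous_fst.comp_continuousOn hcφ).mono fun t ht => (hl t ht).1)
    (fun t ht => hz1 t (hl t ht).1 (hl t ht).2)
  obtain ⟨a2, ha2, ha2'⟩ := sign_const (f := fun t => (φ (γ t)).2) (a := t₀ - η) (b := t₀)
    ((continuous_snd.comp_continuousOn hcφ).mono fun t ht => (hl t ht).1)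
    (fun t ht => hz2 t (hl t ht).1 (hl t ht).2)
  obtain ⟨b1, hb1, hb1'⟩ := sign_const (f := fun t => (φ (γ t)).1) (a := t₀) (b := t₀ + η)
    ((continuous_fst.comp_continuousOn hcφ).mono fun t ht => (hrr t ht).1)
    (fun t ht => hz1 t (hrr t ht).1 (hrr t ht).2)
  obtain ⟨b2, hb2, hb2'⟩ := sign_const (f := fun t => (φ (γ t)).2) (a := t₀) (b := t₀ + η)
    ((continuous_snd.comp_continuousOn hcφ).mono fun t ht => (hrr t ht).1)
    (fun t ht => hz2 t (hrr t ht).1 (hrr t ht).2)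
  have hneg : ∀ s : ℝ, (s = 1 ∨ s = -1) → ∀ ε > 0, ∃ x : ℝ, |x| < ε ∧ s * x < 0 := by
    intro s hs ε hε
    refine ⟨-s * (ε / 2), ?_, ?_⟩
    · rcases hs with rfl | rfl
      · rw [abs_lt]; constructor <;> linarith
      · rw [abs_lt]; constructor <;> linarith
    · rcases hs with rfl | rfl <;> linarith
  -- the signs change
  have hab2 : b2 = -a2 := by
    by_contra hne
    have hab : b2 = a2 := by
      rcases ha2 with rfl | rfl <;> rcases hb2 with rfl | rfl <;> first | rfl | (exfalso; apply hne; norm_num)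
    subst hab
    refine no_side hcont hinj ht hη0 hxk φ hp hp0 (fun z => b2 * z.2) (by fun_prop) ?_ ?_ ?_
    · intro ε hε
      obtain ⟨x, hx, hx'⟩ := hneg b2 hb2 ε hε
      refine ⟨(0, x), ?_, hx'⟩
      rw [Prod.dist_eq]
      simp only [dist_self, Real.dist_eq, sub_zero]
      exact max_lt hε hx
    · intro q hqs
      rw [(hq q hqs).1]
      rcases hb2 with rfl | rfl <;> constructor <;> intro h <;> linarith
    · intro t _ h3 h4
      have h5 := abs_lt.mp h3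
      rcases lt_or_gt_of_ne h4 with h | h
      · exact ha2' t ⟨by linarith, h⟩
      · exact hb2' t ⟨h, by linarith⟩
  have hab1 : b1 = -a1 := by
    by_contra hne
    have hab : b1 = a1 := by
      rcases ha1 with rfl | rfl <;> rcases hb1 with rfl | rfl <;> first | rfl | (exfalso; apply hne; norm_num)
    subst hab
    refine no_side hcont hinj ht hη0 hxl φ hp hp0 (fun z => b1 * z.1) (by fun_prop) ?_ ?_ ?_
    · intro ε hε
      obtain ⟨x, hx, hx'⟩ := hneg b1 hb1 ε hε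
      refine ⟨(x, 0), ?_, hx'⟩
      rw [Prod.dist_eq]
      simp only [dist_self, Real.dist_eq, sub_zero]
      exact max_lt hx hε
    · intro q hqs
      rw [(hq q hqs).2]
      rcases hb1 with rfl | rfl <;> constructor <;> intro h <;> linarith
    · intro t _ h3 h4
      have h5 := abs_lt.mp h3
      rcases lt_or_gt_of_ne h4 with h | h
      · exact ha1' t ⟨by linarith, h⟩
      · exact hb1' t ⟨h, by linarith⟩
  subst hab1 hab2
  -- regions of the quarters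
  have hquad : ∀ s1 s2 : ℝ, ∀ L, ((φ.symm '' Qd r s1 s2) ∩ X.R L).Nonempty →
      φ.symm '' Qd r s1 s2 ⊆ X.R L := by
    intro s1 s2 L hne
    refine const' ((convex_Qd r s1 s2).isPreconnected.image _ (gc.mono Qd_sub)) ?_ hne
    rintro _ ⟨z, hz, rfl⟩ j hj hm
    by_cases hjk : j = k
    · subst hjk
      have := (gk z hz.1).mp hm
      have h5 := hz.2.2
      rw [this, mul_zero] at h5
      exact lt_irrefl _ h5
    · by_cases hjl : j = l
      · subst hjl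
        have := (gl z hz.1).mp hm
        have h5 := hz.2.1
        rw [this, mul_zero] at h5
        exact lt_irrefl _ h5
      · exact gj z hz.1 j hj hjk hjl hm
  have hQ1 : φ.symm '' Qd r a1 a2 ⊆ X.R L₁ := by
    apply hquad
    have hm : t₀ - η / 2 ∈ Ioo (t₀ - η) t₀ := ⟨by linarith, by linarith⟩
    obtain ⟨n1, n2, n3⟩ := hnear _ (hl _ hm).1
    refine ⟨γ (t₀ - η / 2), ⟨φ (γ (t₀ - η / 2)), ⟨n3, ha1' _ hm, ha2' _ hm⟩, hback _ (hl _ hm).1⟩, ?_⟩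
    exact h1 _ n1 hm.2 (by linarith)
  have hQ2 : φ.symm '' Qd r (-a1) (-a2) ⊆ X.R L₂ := by
    apply hquad
    have hm : t₀ + η / 2 ∈ Ioo t₀ (t₀ + η) := ⟨by linarith, by linarith⟩
    obtain ⟨n1, n2, n3⟩ := hnear _ (hrr _ hm).1
    refine ⟨γ (t₀ + η / 2), ⟨φ (γ (t₀ + η / 2)), ⟨n3, hb1' _ hm, hb2' _ hm⟩, hback _ (hrr _ hm).1⟩, ?_⟩
    exact h2 _ n1 hm.1 (by linarith)
  have hpt : ((a1 * (r / 2), -a2 * (r / 2)) : ℝ × ℝ) ∈ Qd r a1 (-a2) := by
    rcases ha1 with rfl | rfl <;> rcases ha2 with rfl | rfl <;>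
      refine ⟨⟨?_, ?_, ?_, ?_⟩, ?_, ?_⟩ <;> simp only <;> linarith
  obtain ⟨M, hM⟩ := X.exists_label (φ.symm (a1 * (r / 2), -a2 * (r / 2)))
  have hQM : φ.symm '' Qd r a1 (-a2) ⊆ X.R M := hquad _ _ _ ⟨_, ⟨_, hpt, rfl⟩, hM⟩
  refine ⟨M, quad_adj hcr hr gc go gk gl gj gv ha1 ha2 hQ1 hQM, ?_⟩
  -- the second transition, with the coordinates interchanged
  have hsw : ∀ z : ℝ × ℝ, z ∈ Sq r ↔ z.swap ∈ Sq r := by
    rintro ⟨x, y⟩; simp only [Sq, mem_ofPred_eq, Prod.swap]; tauto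
  have hswQ : ∀ s1 s2 : ℝ, (φ.symm ∘ Prod.swap) '' Qd r s2 s1 = φ.symm '' Qd r s1 s2 := by
    intro s1 s2
    rw [image_comp]
    congr 1
    ext ⟨x, y⟩
    simp only [mem_image, Qd, mem_ofPred_eq, Prod.exists, Prod.swap_prod_mk, Prod.mk.injEq]
    constructor
    · rintro ⟨x', y', ⟨h1, h2, h3⟩, rfl, rfl⟩
      exact ⟨(hsw _).mp h1, h3, h2⟩
    · rintro ⟨h1, h2, h3⟩
      exact ⟨y, x, ⟨(hsw _).mp h1, h3, h2⟩, rfl, rfl⟩
  have ha1n : -a1 = 1 ∨ -a1 = -1 := by rcases ha1 with rfl | rfl <;> simp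
  have ha2n : -a2 = 1 ∨ -a2 = -1 := by rcases ha2 with rfl | rfl <;> simp
  refine quad_adj hcr (g := φ.symm ∘ Prod.swap) (k := l) (l := k) hr ?_ ?_ ?_ ?_ ?_ ?_ (s1 := -a2)
    (s2 := a1) ha2n ha1 ?_ ?_
  · exact gc.comp continuous_swap.continuousOn fun z hz => (hsw z).mp hz
  · intro O hO hOo
    rw [image_comp]
    apply go
    · rintro _ ⟨z, hz, rfl⟩; exact (hsw z).mp (hO hz)
    · exact (Homeomorph.prodComm ℝ ℝ).isOpenMap _ hOo
  · intro z hz; exact gl _ ((hsw z).mp hz)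
  · intro z hz; exact gk _ ((hsw z).mp hz)
  · intro z hz j hj h1 h2; exact gj _ ((hsw z).mp hz) j hj h2 h1
  · intro z hz i hi; exact gv _ ((hsw z).mp hz) i hi
  · rw [hswQ]; exact hQM
  · rw [hswQ]; exact hQ2

end Pool.Agent.R30.Mat
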