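import Pool.Agent.R30.Mat.Walk
import Pool.Agent.R30.Thr.Defs

set_option autoImplicit false

/-! The matching thrackle and its maximality. -/

namespace Pool.Agent.R30.Mat

open Set Topology Pool.Agent.R30.C4
open Pool.Agent.R30.Thr (IsArc CrossesAt Drawing)

attribute [local irreducible] px py PX PY baseL sideL pathL crossL trL faceL oL BL NKL

/-- the matching with the nine edges `{2k, 2k+1}` -/
def G : SimpleGraph (Fin 18) where
  Adj u v := u ≠ v ∧ u.val / 2 = v.val / 2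
  symm := ⟨fun _ _ h => ⟨h.1.symm, h.2.symm⟩⟩
  loopless := ⟨fun _ h => h.1 rfl⟩

instance : DecidableRel G.Adj := fun u v => by unfold G; infer_instance

/-- the number of an edge -/
def num : Sym2 (Fin 18) → ℕ :=
  Sym2.lift ⟨fun u v => min (u.val / 2) (v.val / 2), fun u v => min_comm _ _⟩

lemma num_mk (u v : Fin 18) : num s(u, v) = min (u.val / 2) (v.val / 2) := rfl

lemma num_adj {u v : Fin 18} (h : G.Adj u v) : num s(u, v) = u.val / 2 := by
  rw [num_mk, ← h.2, min_self]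

lemma adj_cases {u v : Fin 18} (h : G.Adj u v) :
    (u.val = 2 * (u.val / 2) ∧ v.val = 2 * (u.val / 2) + 1) ∨
    (v.val = 2 * (u.val / 2) ∧ u.val = 2 * (u.val / 2) + 1) := by
  obtain ⟨h1, h2⟩ := h
  have : u.val ≠ v.val := fun e => h1 (Fin.ext e)
  omega

/-- the drawing -/
noncomputable def D : Drawing G where
  pos v := P v
  arc e := A (num e)
  pos_injective u v h := Fin.ext (P_inj (by omega) (by omega) h)
  arc_isArc u v h := by
    rw [num_adj h]
    have hk : u.val / 2 < 9 := by omega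
    rcases adj_cases h with ⟨e1, e2⟩ | ⟨e1, e2⟩
    · have := isArc_A hk
      rw [← e2, ← e1] at this
      exact this
    · have := isArc_A hk
      rw [← e2, ← e1] at this
      exact Pool.Agent.R30.Thr.IsArc.symm this
  arc_avoids u v w h hw := by
    rw [num_adj h] at hw
    have h1 := end_on w.2 hw
    rcases adj_cases h with ⟨e1, e2⟩ | ⟨e1, e2⟩
    · have : w.val = u.val ∨ w.val = v.val := by omega
      rcases this with h | h
      · exact Or.inl (Fin.ext h)
      · exact Or.inr (Fin.ext h)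
    · have : w.val = u.val ∨ w.val = v.val := by omega
      rcases this with h | h
      · exact Or.inl (Fin.ext h)
      · exact Or.inr (Fin.ext h)

lemma D_pos (v : Fin 18) : D.pos v = P v := rfl
lemma D_arc (e : Sym2 (Fin 18)) : D.arc e = A (num e) := rfl

/-- the edge number `k` -/
def E (k : ℕ) (hk : k < 9) : Sym2 (Fin 18) := s(⟨2 * k, by omega⟩, ⟨2 * k + 1, by omega⟩)

lemma E_mem {k : ℕ} (hk : k < 9) : E k hk ∈ G.edgeSet := by
  show G.Adj _ _
  refine ⟨?_, ?_⟩
  · intro h; have := congrArg Fin.val h; simp at this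
  · show 2 * k / 2 = (2 * k + 1) / 2; omega

lemma num_E {k : ℕ} (hk : k < 9) : num (E k hk) = k := by
  have := num_adj (E_mem hk : G.Adj _ _)
  show num s(_, _) = k
  rw [this]
  show 2 * k / 2 = k
  omega

lemma eq_E {e : Sym2 (Fin 18)} (he : e ∈ G.edgeSet) : ∃ hk : num e < 9, e = E (num e) hk := by
  induction e using Sym2.ind with
  | _ u v =>
    have h : G.Adj u v := he
    have hn := num_adj h
    have hk : num s(u, v) < 9 := by rw [hn]; omega
    refine ⟨hk, ?_⟩
    rw [E, Sym2.eq_iff]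
    rcases adj_cases h with ⟨e1, e2⟩ | ⟨e1, e2⟩
    · left
      exact ⟨Fin.ext (by show u.val = 2 * num s(u, v); omega),
        Fin.ext (by show v.val = 2 * num s(u, v) + 1; omega)⟩
    · right
      exact ⟨Fin.ext (by show u.val = 2 * num s(u, v) + 1; omega),
        Fin.ext (by show v.val = 2 * num s(u, v); omega)⟩

lemma mem_E {k : ℕ} (hk : k < 9) (w : Fin 18) : w ∈ E k hk ↔ w.val / 2 = k := by
  rw [E, Sym2.mem_iff]
  constructor
  · rintro (rfl | rfl)
    · show 2 * k / 2 = k; omega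
    · show (2 * k + 1) / 2 = k; omega
  · intro h
    have : w.val = 2 * k ∨ w.val = 2 * k + 1 := by omega
    rcases this with h | h
    · exact Or.inl (Fin.ext h)
    · exact Or.inr (Fin.ext h)

theorem D_thrackle : D.IsThrackle := by
  intro e he f hf hef
  obtain ⟨he', h1⟩ := eq_E he
  obtain ⟨hf', h2⟩ := eq_E hf
  have hne : num e ≠ num f := by
    intro h
    apply hef
    rw [h1, h2]
    simp only [h]
  refine ⟨P (XX (num e) (num f)), ?_, Or.inr ?_⟩
  · rw [D_arc, D_arc]; exact A_inter_eq he' hf' hne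
  · rw [D_arc, D_arc]; exact crosses he' hf' hne

theorem D_maximal : D.IsMaximalThrackle := by
  refine ⟨D_thrackle, ?_⟩
  intro u v huv hnadj D' hpos harc hth
  have hposw : ∀ w : Fin 18, D'.pos w = P w := fun w => by rw [hpos]; rfl
  have hadj : (G ⊔ SimpleGraph.edge u v).Adj u v := by
    right
    rw [SimpleGraph.edge_adj]
    exact ⟨Or.inl ⟨rfl, rfl⟩, huv⟩
  have hgmem : s(u, v) ∈ (G ⊔ SimpleGraph.edge u v).edgeSet := hadj
  have hab : u.val / 2 ≠ v.val / 2 := fun h => hnadj ⟨huv, h⟩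
  obtain ⟨γ, hcont, hinj, h0, h1, himg⟩ := D'.arc_isArc u v hadj
  rw [hposw] at h0 h1
  have z01 : (0 : ℝ) ∈ Icc (0 : ℝ) 1 := left_mem_Icc.mpr zero_le_one
  have o01 : (1 : ℝ) ∈ Icc (0 : ℝ) 1 := right_mem_Icc.mpr zero_le_one
  have hEarc : ∀ k (hk : k < 9), D'.arc (E k hk) = A k := fun k hk => by
    rw [harc _ (E_mem hk), D_arc, num_E]
  -- the relation of the new arc to the old edges
  have hrel : ∀ k (hk : k < 9), ∃ p, A k ∩ γ '' Icc 0 1 = {p} ∧
      ((∃ w, w ∈ E k hk ∧ w ∈ s(u, v) ∧ p = D'.pos w) ∨ CrossesAt (A k) (γ '' Icc 0 1) p) := by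
    intro k hk
    have hne : E k hk ≠ s(u, v) := by
      intro h
      apply hnadj
      have := E_mem hk
      rw [h] at this
      exact this
    have := hth (E k hk) (SimpleGraph.edgeSet_mono le_sup_left (E_mem hk)) s(u, v) hgmem hne
    rwa [hEarc k hk, ← himg] at this
  -- vertices on the new arc
  have hvert : ∀ t ∈ Ioo (0 : ℝ) 1, ∀ w < 18, γ t ≠ P w := by
    intro t ht w hw he
    have ht' := Ioo_subset_Icc_self ht
    have hm : D'.pos ⟨w, hw⟩ ∈ D'.arc s(u, v) := by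
      rw [hposw, ← himg]; exact ⟨t, ht', he⟩
    rcases D'.arc_avoids u v ⟨w, hw⟩ hadj hm with h | h
    · have : w = u.val := congrArg Fin.val h
      subst this
      rw [← h0] at he
      exact ht.1.ne' (hinj ht' z01 he)
    · have : w = v.val := congrArg Fin.val h
      subst this
      rw [← h1] at he
      exact ht.2.ne (hinj ht' o01 he)
  -- edges with a common end are avoided
  have hfree : ∀ k < 9, ¬ (k ≠ u.val / 2 ∧ k ≠ v.val / 2) → ∀ t ∈ Ioo (0 : ℝ) 1, γ t ∉ A k := by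
    intro k hk hn t ht hm
    obtain ⟨p, hp, -⟩ := hrel k hk
    have ht' := Ioo_subset_Icc_self ht
    have e1 : γ t = p := by
      have : γ t ∈ A k ∩ γ '' Icc 0 1 := ⟨hm, ⟨t, ht', rfl⟩⟩
      rw [hp] at this; exact this
    rw [not_and_or, not_not, not_not] at hn
    rcases hn with hn | hn
    · have : P u ∈ A k ∩ γ '' Icc 0 1 := ⟨by rw [hn]; exact on_end u.2, ⟨0, z01, h0⟩⟩
      rw [hp] at this
      have e2 : P u = p := this
      exact hvert t ht u u.2 (by rw [e1, e2])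
    · have : P v ∈ A k ∩ γ '' Icc 0 1 := ⟨by rw [hn]; exact on_end v.2, ⟨1, o01, h1⟩⟩
      rw [hp] at this
      have e2 : P v = p := this
      exact hvert t ht v v.2 (by rw [e1, e2])
  -- the other edges are hit once
  have hhit : ∀ k < 9, (k ≠ u.val / 2 ∧ k ≠ v.val / 2) → ∃ t₀ ∈ Ioo (0 : ℝ) 1, γ t₀ ∈ A k ∧
      (∀ t ∈ Icc (0 : ℝ) 1, γ t ∈ A k → t = t₀) ∧ CrossesAt (A k) (γ '' Icc 0 1) (γ t₀) := by
    intro k hk ⟨hu, hv⟩
    obtain ⟨p, hp, hx⟩ := hrel k hk
    have hpm : p ∈ A k ∩ γ '' Icc 0 1 := by rw [hp]; rfl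
    obtain ⟨hpA, t₀, ht₀, rfl⟩ := hpm
    have hx' : CrossesAt (A k) (γ '' Icc 0 1) (γ t₀) := by
      rcases hx with ⟨w, hw, hw', -⟩ | hx
      · exfalso
        rw [mem_E hk] at hw
        rcases Sym2.mem_iff.mp hw' with rfl | rfl
        · exact hu hw.symm
        · exact hv hw.symm
      · exact hx
    refine ⟨t₀, ⟨?_, ?_⟩, hpA, ?_, hx'⟩
    · rcases ht₀.1.eq_or_lt with h | h
      · exfalso
        rw [← h, h0] at hpA
        exact hu (end_on u.2 hpA).symm
      · exact h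
    · rcases ht₀.2.eq_or_lt with h | h
      · exfalso
        rw [h, h1] at hpA
        exact hv (end_on v.2 hpA).symm
      · exact h
    · intro t ht hm
      have : γ t ∈ A k ∩ γ '' Icc 0 1 := ⟨hm, ⟨t, ht, rfl⟩⟩
      rw [hp] at this
      exact hinj ht ht₀ this
  -- the events
  set S : Finset ℕ := (Finset.range 9).filter (fun k => k ≠ u.val / 2 ∧ k ≠ v.val / 2) with hSdef
  have hSmem : ∀ k, k ∈ S ↔ k < 9 ∧ (k ≠ u.val / 2 ∧ k ≠ v.val / 2) := by
    intro k; rw [hSdef, Finset.mem_filter, Finset.mem_range]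
  have hch : ∀ k, ∃ t₀, k ∈ S → t₀ ∈ Ioo (0 : ℝ) 1 ∧ γ t₀ ∈ A k ∧
      (∀ t ∈ Icc (0 : ℝ) 1, γ t ∈ A k → t = t₀) ∧ CrossesAt (A k) (γ '' Icc 0 1) (γ t₀) := by
    intro k
    by_cases hk : k ∈ S
    · obtain ⟨t₀, ht⟩ := hhit k ((hSmem k).mp hk).1 ((hSmem k).mp hk).2
      exact ⟨t₀, fun _ => ht⟩
    · exact ⟨0, fun h => absurd h hk⟩
  choose T hT using hch
  have hw := walk u.2 hcont hinj h0 S (fun k hk => ((hSmem k).mp hk).1)
    (fun k hk => ((hSmem k).mp hk).2.1) T (fun k hk => (hT k hk).1) (fun k hk => (hT k hk).2.1)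
    (fun k hk => (hT k hk).2.2.1) (fun k hk => (hT k hk).2.2.2)
    (fun k hk hn => hfree k hk (fun h => hn ((hSmem k).mpr ⟨hk, h⟩))) hvert
  obtain ⟨s', hs0, hs1, hsT⟩ := exists_before S T (s := 1) one_pos
  have hs'ne : ∀ k ∈ S, T k ≠ s' := fun k hk he => by
    have := hsT k hk (hT k hk).1.2
    linarith
  obtain ⟨L, hL⟩ := X.exists_label (γ s')
  obtain ⟨m, hm, hreach⟩ := hw _ s' ⟨hs0, hs1⟩ hs'ne rfl L hL
  -- the last piece
  have hLv : L = face v := by
    have hsub : Ioo s' 1 ⊆ Icc (0 : ℝ) 1 := fun t ht => ⟨hs0.le.trans ht.1.le, ht.2.le⟩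
    have hsub' : Icc s' 1 ⊆ Icc (0 : ℝ) 1 := fun t ht => ⟨hs0.le.trans ht.1, ht.2⟩
    have hsub2 : Ico s' 1 ⊆ Icc (0 : ℝ) 1 := fun t ht => ⟨hs0.le.trans ht.1, ht.2.le⟩
    have hC : IsPreconnected (γ '' Ico s' 1) := isPreconnected_Ico.image _ (hcont.mono hsub2)
    have hsubR : γ '' Ico s' 1 ⊆ X.R L := by
      refine const' hC ?_ ⟨_, ⟨s', ⟨le_rfl, hs1⟩, rfl⟩, hL⟩
      rintro p ⟨t, ht, rfl⟩ j hj hm
      have htI : t ∈ Ioo (0 : ℝ) 1 := ⟨by linarith [ht.1], ht.2⟩
      by_cases hjS : j ∈ S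
      · have e := (hT j hjS).2.2.1 t (Ioo_subset_Icc_self htI) hm
        have := hsT j hjS (hT j hjS).1.2
        linarith [ht.1]
      · exact hfree j hj (fun h => hjS ((hSmem j).mpr ⟨hj, h⟩)) t htI hm
    have hcl : γ '' Icc s' 1 ⊆ closure (γ '' Ico s' 1) := by
      have h : closure (Ico s' 1) = Icc s' 1 := closure_Ico hs1.ne
      have := ContinuousOn.image_closure (s := Ico s' 1) (f := γ)
        (by rw [h]; exact hcont.mono hsub')
      rwa [h] at this
    have h11 := closure_minimal hsubR (X.isClosed_R L) (hcl ⟨1, ⟨hs1.le, le_rfl⟩, rfl⟩)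
    rw [h1] at h11
    exact label_end v.2 h11
  subst hLv
  refine no_reach u.2 v.2 hab ?_ hreach
  intro k hk
  rw [hm k hk, hSmem]
  constructor
  · rintro ⟨⟨-, h⟩, -⟩; exact h
  · intro h
    have hkS : k ∈ S := (hSmem k).mpr ⟨hk, h⟩
    exact ⟨⟨hk, h⟩, hsT k hkS (hT k hkS).1.2⟩

theorem G_unique : ∀ v : Fin 18, ∃! w, G.Adj v w := by
  intro v
  have : ∀ v : Fin 18, ∃ w, G.Adj v w ∧ ∀ w', G.Adj v w' → w' = w := by decide +kernel
  exact this v

theorem G_card : G.edgeSet.ncard = 9 := by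
  have h : G.edgeSet = ((Finset.univ.image (fun k : Fin 9 => E k k.2) : Finset (Sym2 (Fin 18))) :
      Set (Sym2 (Fin 18))) := by
    ext e
    simp only [Finset.coe_image, Finset.coe_univ, image_univ, mem_range]
    constructor
    · intro he
      obtain ⟨hk, h⟩ := eq_E he
      exact ⟨⟨num e, hk⟩, h.symm⟩
    · rintro ⟨k, rfl⟩; exact E_mem k.2
  rw [h, Set.ncard_coe_finset, Finset.card_image_of_injective]
  · simp
  · intro k l hkl
    have := congrArg num hkl
    simp only [num_E] at this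
    exact Fin.ext this

end Pool.Agent.R30.Mat
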