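import Pool.Agent.R30.Mat.Arc

set_option autoImplicit false

/-! The arcs cross at their common points. -/

namespace Pool.Agent.R30.Mat

open Set Topology Pool.Agent.R30.C4
open Pool.Agent.R30.Thr (IsArc CrossesAt isArc_segment isArc_union crossesAt_of_homeo)

attribute [local irreducible] px py PX PY baseL sideL pathL crossL trL faceL oL BL NKL

/-- piecewise linear function with slope `a` on the right and `b` on the left -/
def pl (a b t : ℝ) : ℝ := a * max t 0 + b * min t 0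

lemma pl_cont (a b : ℝ) : Continuous (pl a b) := by unfold pl; fun_prop

lemma pl_pos {a b t : ℝ} (h : 0 ≤ t) : pl a b t = a * t := by
  simp [pl, max_eq_left h, min_eq_right h]

lemma pl_neg {a b t : ℝ} (h : t ≤ 0) : pl a b t = b * t := by
  simp [pl, max_eq_right h, min_eq_left h]

/-- determinant -/
def cr (u v : ℝ × ℝ) : ℝ := u.1 * v.2 - u.2 * v.1

/-- a similarity with centre `p` -/
noncomputable def simH (h1 h2 : ℝ) (hn : h1 ^ 2 + h2 ^ 2 ≠ 0) (p : ℝ × ℝ) : ℝ × ℝ ≃ₜ ℝ × ℝ where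
  toFun q := (h2 * (q.1 - p.1) - h1 * (q.2 - p.2), h1 * (q.1 - p.1) + h2 * (q.2 - p.2))
  invFun z := (p.1 + (h2 * z.1 + h1 * z.2) / (h1 ^ 2 + h2 ^ 2),
    p.2 + (-h1 * z.1 + h2 * z.2) / (h1 ^ 2 + h2 ^ 2))
  left_inv q := by
    apply Prod.ext <;> simp only <;> field_simp <;> ring
  right_inv z := by
    apply Prod.ext <;> simp only <;> field_simp <;> ring
  continuous_toFun := by fun_prop
  continuous_invFun := by fun_prop

/-- horizontal shear -/
noncomputable def shx (f : ℝ → ℝ) (hf : Continuous f) : ℝ × ℝ ≃ₜ ℝ × ℝ where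
  toFun z := (z.1 - f z.2, z.2)
  invFun z := (z.1 + f z.2, z.2)
  left_inv q := by apply Prod.ext <;> simp
  right_inv z := by apply Prod.ext <;> simp
  continuous_toFun := by fun_prop
  continuous_invFun := by fun_prop

/-- vertical shear -/
noncomputable def shy (f : ℝ → ℝ) (hf : Continuous f) : ℝ × ℝ ≃ₜ ℝ × ℝ where
  toFun z := (z.1, z.2 - f z.1)
  invFun z := (z.1, z.2 + f z.1)
  left_inv q := by apply Prod.ext <;> simp
  right_inv z := by apply Prod.ext <;> simp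
  continuous_toFun := by fun_prop
  continuous_invFun := by fun_prop

/-- the linear forms -/
def hf (h1 h2 : ℝ) (u : ℝ × ℝ) : ℝ := h1 * u.1 + h2 * u.2
/-- the linear forms -/
def gf (h1 h2 : ℝ) (u : ℝ × ℝ) : ℝ := h2 * u.1 - h1 * u.2

lemma gh_cr (h1 h2 : ℝ) (u v : ℝ × ℝ) :
    gf h1 h2 u * hf h1 h2 v - gf h1 h2 v * hf h1 h2 u = (h1 ^ 2 + h2 ^ 2) * cr u v := by
  simp only [gf, hf, cr]; ring

/-- Four rays whose directions alternate can be straightened. -/
lemma model (p u0 u1 u2 u3 : ℝ × ℝ) (h1 h2 : ℝ) (c1 : 0 < hf h1 h2 u1) (c3 : hf h1 h2 u3 < 0)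
    (c0 : 0 ≤ hf h1 h2 u0 → 0 < cr u0 u1) (c0' : hf h1 h2 u0 < 0 → 0 < cr u3 u0)
    (c2 : 0 ≤ hf h1 h2 u2 → 0 < cr u1 u2) (c2' : hf h1 h2 u2 < 0 → 0 < cr u2 u3) :
    ∃ φ : ℝ × ℝ ≃ₜ ℝ × ℝ, φ p = (0, 0) ∧
      (∀ q, (φ q).2 = 0 ↔ (∃ t : ℝ, 0 ≤ t ∧ q = p + t • u0) ∨ (∃ t : ℝ, 0 ≤ t ∧ q = p + t • u2)) ∧
      (∀ q, (φ q).1 = 0 ↔ (∃ t : ℝ, 0 ≤ t ∧ q = p + t • u1) ∨
        (∃ t : ℝ, 0 ≤ t ∧ q = p + t • u3)) := by
  have hn : 0 < h1 ^ 2 + h2 ^ 2 := by
    by_contra hcon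
    have e1 : h1 = 0 := by nlinarith [sq_nonneg h1, sq_nonneg h2]
    have e2 : h2 = 0 := by nlinarith [sq_nonneg h1, sq_nonneg h2]
    rw [e1, e2] at c1; simp [hf] at c1
  set m1 := gf h1 h2 u1 / hf h1 h2 u1 with hm1
  set m3 := gf h1 h2 u3 / hf h1 h2 u3 with hm3
  have hm1' : m1 * hf h1 h2 u1 = gf h1 h2 u1 := by rw [hm1]; field_simp
  have hm3' : m3 * hf h1 h2 u3 = gf h1 h2 u3 := by
    rw [hm3]; exact div_mul_cancel₀ _ c3.ne
  -- first coordinate
  set X : ℝ × ℝ → ℝ := fun w => gf h1 h2 w - pl m1 m3 (hf h1 h2 w) with hX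
  have hfs : ∀ (t : ℝ) (u : ℝ × ℝ), hf h1 h2 (t • u) = t * hf h1 h2 u := by
    intro t u; simp only [hf, Prod.smul_fst, Prod.smul_snd, smul_eq_mul]; ring
  have gfs : ∀ (t : ℝ) (u : ℝ × ℝ), gf h1 h2 (t • u) = t * gf h1 h2 u := by
    intro t u; simp only [gf, Prod.smul_fst, Prod.smul_snd, smul_eq_mul]; ring
  have hXs : ∀ (t : ℝ) (u : ℝ × ℝ), 0 ≤ t → X (t • u) = t * X u := by
    intro t u ht
    simp only [hX]
    rw [hfs, gfs]
    rcases le_total 0 (hf h1 h2 u) with h | h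
    · rw [pl_pos (mul_nonneg ht h), pl_pos h]; ring
    · rw [pl_neg (mul_nonpos_of_nonneg_of_nonpos ht h), pl_neg h]; ring
  have hinj : ∀ w w' : ℝ × ℝ, X w = X w' → hf h1 h2 w = hf h1 h2 w' → w = w' := by
    intro w w' e1 e2
    simp only [hX] at e1
    rw [e2] at e1
    have e3 : gf h1 h2 w = gf h1 h2 w' := by linarith
    simp only [hf, gf] at e2 e3
    have k1 : (h1 ^ 2 + h2 ^ 2) * (w.1 - w'.1) = 0 := by
      have : (h1 ^ 2 + h2 ^ 2) * (w.1 - w'.1) =
        h1 * ((h1 * w.1 + h2 * w.2) - (h1 * w'.1 + h2 * w'.2)) +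
        h2 * ((h2 * w.1 - h1 * w.2) - (h2 * w'.1 - h1 * w'.2)) := by ring
      rw [this, e2, e3]; ring
    have k2 : (h1 ^ 2 + h2 ^ 2) * (w.2 - w'.2) = 0 := by
      have : (h1 ^ 2 + h2 ^ 2) * (w.2 - w'.2) =
        h2 * ((h1 * w.1 + h2 * w.2) - (h1 * w'.1 + h2 * w'.2)) -
        h1 * ((h2 * w.1 - h1 * w.2) - (h2 * w'.1 - h1 * w'.2)) := by ring
      rw [this, e2, e3]; ring
    have l1 := (mul_eq_zero.mp k1).resolve_left hn.ne'
    have l2 := (mul_eq_zero.mp k2).resolve_left hn.ne'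
    exact Prod.ext (by linarith) (by linarith)
  have hX1 : X u1 = 0 := by
    simp only [hX]; rw [pl_pos c1.le, hm1', sub_self]
  have hX3 : X u3 = 0 := by
    simp only [hX]; rw [pl_neg c3.le, hm3', sub_self]
  have hX0 : 0 < X u0 := by
    simp only [hX]
    rcases le_or_gt 0 (hf h1 h2 u0) with h | h
    · rw [pl_pos h]
      have e := gh_cr h1 h2 u0 u1
      have h0 := mul_pos hn (c0 h)
      rw [← e, ← hm1'] at h0
      have : 0 < (gf h1 h2 u0 - m1 * hf h1 h2 u0) * hf h1 h2 u1 := by linarith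
      exact (mul_pos_iff_of_pos_right c1).mp this
    · rw [pl_neg h.le]
      have e := gh_cr h1 h2 u3 u0
      have h0 := mul_pos hn (c0' h)
      rw [← e, ← hm3'] at h0
      have : 0 < (gf h1 h2 u0 - m3 * hf h1 h2 u0) * (-hf h1 h2 u3) := by linarith
      exact (mul_pos_iff_of_pos_right (by linarith)).mp this
  have hX2 : X u2 < 0 := by
    simp only [hX]
    rcases le_or_gt 0 (hf h1 h2 u2) with h | h
    · rw [pl_pos h]
      have e := gh_cr h1 h2 u1 u2
      have h0 := mul_pos hn (c2 h)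
      rw [← e, ← hm1'] at h0
      have : 0 < (-(gf h1 h2 u2 - m1 * hf h1 h2 u2)) * hf h1 h2 u1 := by linarith
      have := (mul_pos_iff_of_pos_right c1).mp this
      linarith
    · rw [pl_neg h.le]
      have e := gh_cr h1 h2 u2 u3
      have h0 := mul_pos hn (c2' h)
      rw [← e, ← hm3'] at h0
      have : 0 < (-(gf h1 h2 u2 - m3 * hf h1 h2 u2)) * (-hf h1 h2 u3) := by linarith
      have := (mul_pos_iff_of_pos_right (by linarith)).mp this
      linarith
  set s0 := hf h1 h2 u0 / X u0 with hs0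
  set s2 := hf h1 h2 u2 / X u2 with hs2
  have hs0' : s0 * X u0 = hf h1 h2 u0 := by rw [hs0]; exact div_mul_cancel₀ _ hX0.ne'
  have hs2' : s2 * X u2 = hf h1 h2 u2 := by rw [hs2]; exact div_mul_cancel₀ _ hX2.ne
  refine ⟨(simH h1 h2 hn.ne' p).trans ((shx (pl m1 m3) (pl_cont _ _)).trans
    (shy (pl s0 s2) (pl_cont _ _))), ?_, ?_, ?_⟩
  · have e0 : hf h1 h2 (p - p) = 0 := by simp [hf]
    have e1 : X (p - p) = 0 := by
      simp only [hX]
      rw [e0, pl_pos le_rfl]; simp [gf]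
    apply Prod.ext
    · show X (p - p) = 0
      exact e1
    · show hf h1 h2 (p - p) - pl s0 s2 (X (p - p)) = 0
      rw [e0, e1, pl_pos le_rfl]; ring
  · intro q
    show hf h1 h2 (q - p) - pl s0 s2 (X (q - p)) = 0 ↔ _
    constructor
    · intro h
      rcases le_total 0 (X (q - p)) with hx | hx
      · left
        rw [pl_pos hx] at h
        refine ⟨X (q - p) / X u0, div_nonneg hx hX0.le, ?_⟩
        have : q - p = (X (q - p) / X u0) • u0 := by
          apply hinj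
          · rw [hXs _ _ (div_nonneg hx hX0.le), div_mul_cancel₀ _ hX0.ne']
          · rw [hfs, ← hs0']
            have : X (q - p) / X u0 * (s0 * X u0) = s0 * X (q - p) := by
              field_simp
            rw [this]; linarith
        rw [← this]; abel
      · right
        rw [pl_neg hx] at h
        have hnn : 0 ≤ X (q - p) / X u2 := div_nonneg_of_nonpos hx hX2.le
        refine ⟨X (q - p) / X u2, hnn, ?_⟩
        have : q - p = (X (q - p) / X u2) • u2 := by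
          apply hinj
          · rw [hXs _ _ hnn, div_mul_cancel₀ _ hX2.ne]
          · rw [hfs, ← hs2']
            have hne := hX2.ne
            have : X (q - p) / X u2 * (s2 * X u2) = s2 * X (q - p) := by
              field_simp
            rw [this]; linarith
        rw [← this]; abel
    · rintro (⟨t, ht, rfl⟩ | ⟨t, ht, rfl⟩)
      · rw [add_sub_cancel_left, hXs _ _ ht, hfs, pl_pos (mul_nonneg ht hX0.le), ← hs0']; ring
      · rw [add_sub_cancel_left, hXs _ _ ht, hfs,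
          pl_neg (mul_nonpos_of_nonneg_of_nonpos ht hX2.le), ← hs2']; ring
  · intro q
    show X (q - p) = 0 ↔ _
    constructor
    · intro h
      rcases le_total 0 (hf h1 h2 (q - p)) with hx | hx
      · left
        have hnn : 0 ≤ hf h1 h2 (q - p) / hf h1 h2 u1 := div_nonneg hx c1.le
        refine ⟨hf h1 h2 (q - p) / hf h1 h2 u1, hnn, ?_⟩
        have : q - p = (hf h1 h2 (q - p) / hf h1 h2 u1) • u1 := by
          apply hinj
          · rw [hXs _ _ hnn, hX1, h, mul_zero]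
          · rw [hfs, div_mul_cancel₀ _ c1.ne']
        rw [← this]; abel
      · right
        have hnn : 0 ≤ hf h1 h2 (q - p) / hf h1 h2 u3 := div_nonneg_of_nonpos hx c3.le
        refine ⟨hf h1 h2 (q - p) / hf h1 h2 u3, hnn, ?_⟩
        have : q - p = (hf h1 h2 (q - p) / hf h1 h2 u3) • u3 := by
          apply hinj
          · rw [hXs _ _ hnn, hX3, h, mul_zero]
          · rw [hfs, div_mul_cancel₀ _ c3.ne]
        rw [← this]; abel
    · rintro (⟨t, ht, rfl⟩ | ⟨t, ht, rfl⟩)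
      · rw [add_sub_cancel_left, hXs _ _ ht, hX1, mul_zero]
      · rw [add_sub_cancel_left, hXs _ _ ht, hX3, mul_zero]

/-- near the start of a ray, the ray is the segment -/
lemma ray_seg {p b : ℝ × ℝ} (hne : p ≠ b) :
    ∀ᶠ q in 𝓝 p, (∃ t : ℝ, 0 ≤ t ∧ q = p + t • (b - p)) → q ∈ segment ℝ p b := by
  have hpos : 0 < ‖b - p‖ := norm_pos_iff.mpr (sub_ne_zero.mpr hne.symm)
  filter_upwards [Metric.ball_mem_nhds p hpos] with q hq
  rintro ⟨t, ht, rfl⟩
  have h1 : t * ‖b - p‖ < ‖b - p‖ := by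
    rw [Metric.mem_ball, dist_eq_norm, add_sub_cancel_left, norm_smul, Real.norm_eq_abs,
      abs_of_nonneg ht] at hq
    exact hq
  have h2 : t ≤ 1 := by
    by_contra hcon
    push Not at hcon
    nlinarith
  exact ⟨1 - t, t, by linarith, ht, by ring, by module⟩

lemma seg_ray {p b q : ℝ × ℝ} (h : q ∈ segment ℝ p b) :
    ∃ t : ℝ, 0 ≤ t ∧ q = p + t • (b - p) := by
  obtain ⟨s, t, hs, ht, hst, rfl⟩ := h
  have : s = 1 - t := by linarith
  subst this
  exact ⟨t, ht, by module⟩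

/-- the arc near one of its inner vertices -/
lemma arc_near {v k r s : ℕ} (hv : v < 54) (hstar : star v k r s = true) :
    ∀ᶠ q in 𝓝 (P v), q ∈ A k ↔ (∃ t : ℝ, 0 ≤ t ∧ q = P v + t • (P r - P v)) ∨
      (∃ t : ℝ, 0 ≤ t ∧ q = P v + t • (P s - P v)) := by
  obtain ⟨h1, h2, h3⟩ := star_spec hstar
  have hfar : ∀ᶠ q in 𝓝 (P v), ∀ z ∈ {z | z ∈ sideL}, z.2.2 = k → ¬ (z.1 = v ∨ z.2.1 = v) →
      q ∉ segment ℝ (P z.1) (P z.2.1) := by
    rw [(List.finite_toSet sideL).eventually_all]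
    rintro ⟨a, b, k'⟩ hz
    by_cases hk : k' = k
    · by_cases hn : a = v ∨ b = v
      · exact Filter.Eventually.of_forall fun q _ h => absurd hn h
      · have hnm : P v ∉ segment ℝ (P a) (P b) := by
          intro hm
          rcases vertex_side hz hv hm with rfl | rfl
          · exact hn (Or.inl rfl)
          · exact hn (Or.inr rfl)
        filter_upwards [(isClosed_seg (P a) (P b)).isOpen_compl.mem_nhds hnm] with q hq _ _
        exact hq
    · exact Filter.Eventually.of_forall fun q h _ => absurd h hk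
  filter_upwards [hfar, ray_seg (side_ne h2), ray_seg (side_ne h3)] with q hq hr hs
  constructor
  · rintro ⟨a, b, hm, hx⟩
    by_cases hn : a = v ∨ b = v
    · rcases h1 a b hm hn with ⟨rfl, rfl | rfl⟩ | ⟨rfl, rfl | rfl⟩
      · exact Or.inl (seg_ray hx)
      · exact Or.inr (seg_ray hx)
      · rw [segment_symm] at hx; exact Or.inl (seg_ray hx)
      · rw [segment_symm] at hx; exact Or.inr (seg_ray hx)
    · exact absurd hx (hq (a, b, k) hm rfl hn)
  · rintro (h | h)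
    · exact mem_A h2 (hr h)
    · exact mem_A h3 (hs h)

lemma hf_int (h1 h2 : ℤ) (v r : ℕ) : hf h1 h2 (P r - P v) = (hz h1 h2 v r : ℝ) := by
  simp only [hf, hz, P, Prod.fst_sub, Prod.snd_sub]; push_cast; ring

lemma cr_ori (v a b : ℝ × ℝ) : cr (a - v) (b - v) = ori v a b := by
  simp only [cr, ori, Prod.fst_sub, Prod.snd_sub]

lemma crosses_z {z : ℕ × ℕ × ℕ × ℕ × ℕ × ℕ × ℕ × ℤ × ℤ} (hz : z ∈ crossL) :
    CrossesAt (A z.2.1) (A z.2.2.1) (P z.1) := by
  obtain ⟨v, k, l, r0, r1, r2, r3, h1, h2⟩ := z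
  obtain ⟨c1, c3, c0, c0', c2, c2'⟩ := c_form _ hz v k l r0 r1 r2 r3 h1 h2 rfl
  obtain ⟨s1, s2⟩ := star_k hz
  simp only at s1 s2
  have hv : v < 54 := (real_lt (star_spec s1).2.1).1
  obtain ⟨φ, hp, hY, hX⟩ := model (P v) (P r0 - P v) (P r1 - P v) (P r2 - P v) (P r3 - P v)
    (h1 : ℝ) (h2 : ℝ)
    (by rw [hf_int]; exact_mod_cast c1) (by rw [hf_int]; exact_mod_cast c3)
    (by rw [hf_int, cr_ori]; intro h; exact (pos_iff _ _ _).mp (c0 (by exact_mod_cast h)))
    (by rw [hf_int, cr_ori]; intro h; exact (pos_iff _ _ _).mp (c0' (by exact_mod_cast h)))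
    (by rw [hf_int, cr_ori]; intro h; exact (pos_iff _ _ _).mp (c2 (by exact_mod_cast h)))
    (by rw [hf_int, cr_ori]; intro h; exact (pos_iff _ _ _).mp (c2' (by exact_mod_cast h)))
  have hev : ∀ᶠ q in 𝓝 (P v), (q ∈ A k ↔ (φ q).2 = 0) ∧ (q ∈ A l ↔ (φ q).1 = 0) := by
    filter_upwards [arc_near hv s1, arc_near hv s2] with q q1 q2
    exact ⟨q1.trans (hY q).symm, q2.trans (hX q).symm⟩
  obtain ⟨S, hS, hSo, hSp⟩ := mem_nhds_iff.mp hev
  exact crossesAt_of_homeo φ hSo hSp hp (fun q hq => (hS hq).1) (fun q hq => (hS hq).2)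

theorem crosses {k l : ℕ} (hk : k < 9) (hl : l < 9) (hkl : k ≠ l) :
    CrossesAt (A k) (A l) (P (XX k l)) := by
  rcases lt_or_gt_of_ne hkl with h | h
  · obtain ⟨z, hz, rfl, rfl⟩ := c_all k hk l hl h
    obtain ⟨n1, n2, n3, n4, n5, -⟩ := c_xx z hz
    rw [n4]
    exact crosses_z hz
  · obtain ⟨z, hz, rfl, rfl⟩ := c_all l hl k hk h
    obtain ⟨n1, n2, n3, n4, n5, -⟩ := c_xx z hz
    rw [n5]
    exact Pool.Agent.R30.Thr.CrossesAt.symm (crosses_z hz)

end Pool.Agent.R30.Mat
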