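import Pool.Agent.R30.Mat.Check2
import Pool.Agent.R30.Thr.LPic

set_option autoImplicit false

/-! The labelled picture. -/

namespace Pool.Agent.R30.Mat

open Set Topology Pool.Agent.R30.C4 Pool.Agent.R30.Thr

attribute [local irreducible] px py PX PY baseL sideL pathL crossL trL faceL oL BL NKL

/-- the points -/
noncomputable def P (i : ℕ) : ℝ × ℝ := ((px i : ℝ), (py i : ℝ))

lemma pos_iff (a b c : ℕ) : pos a b c = true ↔ 0 < ori (P a) (P b) (P c) := by
  have h : pos a b c = true ↔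
      (py a * px b + py b * px c + py c * px a) + 1 ≤ px a * py b + px b * py c + px c * py a := by
    unfold pos
    rw [Nat.ble_eq]
    rfl
  rw [h, Nat.succ_le_iff]
  have h2 : (py a * px b + py b * px c + py c * px a < px a * py b + px b * py c + px c * py a) ↔
      ((py a * px b + py b * px c + py c * px a : ℕ) : ℝ) <
        ((px a * py b + px b * py c + px c * py a : ℕ) : ℝ) := by
    exact Nat.cast_lt.symm
  rw [h2]
  push_cast
  simp only [ori, P]
  constructor <;> intro h <;> nlinarith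

lemma npos_iff (a b c : ℕ) : npos a b c = true ↔ ori (P a) (P b) (P c) ≤ 0 := by
  unfold npos
  rw [Bool.not_eq_true', ← Bool.not_eq_true, pos_iff, not_lt]

lemma ori_swap' (a b c : ℝ × ℝ) : ori a b c = - ori b a c := by simp only [ori]; ring

lemma pos_neg {a b c : ℕ} (h : pos b a c = true) : ori (P a) (P b) (P c) < 0 := by
  rw [pos_iff] at h; rw [ori_swap']; linarith

/-- cells -/
def Cell (a b c : ℕ) : Prop := ∃ L, (a, b, c, L) ∈ cellsL
/-- outer triangle -/
def Outs (a b c : ℕ) : Prop := (a, b, c) ∈ outsL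
/-- sides of edges -/
def Rl (a b : ℕ) : Prop := ∃ k, (a, b, k) ∈ realL

lemma mem_cellsL {a b c L : ℕ} : (a, b, c, L) ∈ cellsL ↔
    (a, b, c, L) ∈ baseL ∨ (c, a, b, L) ∈ baseL ∨ (b, c, a, L) ∈ baseL := by
  unfold cellsL
  simp only [List.mem_append, List.mem_map, Prod.mk.injEq, Prod.exists]
  constructor
  · rintro (h | ⟨a', b', c', L', h, rfl, rfl, rfl, rfl⟩ | ⟨a', b', c', L', h, rfl, rfl, rfl, rfl⟩)
    · exact Or.inl h
    · exact Or.inr (Or.inl h)
    · exact Or.inr (Or.inr h)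
  · rintro (h | h | h)
    · exact Or.inl h
    · exact Or.inr (Or.inl ⟨_, _, _, _, h, rfl, rfl, rfl, rfl⟩)
    · exact Or.inr (Or.inr ⟨_, _, _, _, h, rfl, rfl, rfl, rfl⟩)

lemma rot_mem {a b c L : ℕ} (h : (a, b, c, L) ∈ cellsL) : (b, c, a, L) ∈ cellsL := by
  rw [mem_cellsL] at h ⊢
  tauto

/-- a statement invariant under rotation -/
lemma of_base {Q : ℕ → ℕ → ℕ → ℕ → Prop} (hrot : ∀ a b c L, Q a b c L → Q b c a L)
    (h : ∀ a b c L, (a, b, c, L) ∈ baseL → Q a b c L) {a b c L : ℕ} (hc : (a, b, c, L) ∈ cellsL) :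
    Q a b c L := by
  rcases mem_cellsL.mp hc with h1 | h1 | h1
  · exact h _ _ _ _ h1
  · exact hrot _ _ _ _ (h _ _ _ _ h1)
  · exact hrot _ _ _ _ (hrot _ _ _ _ (h _ _ _ _ h1))

lemma cell_pos' {a b c L : ℕ} (h : (a, b, c, L) ∈ cellsL) : 0 < ori (P a) (P b) (P c) := by
  refine of_base (Q := fun a b c _ => 0 < ori (P a) (P b) (P c)) ?_ ?_ h
  · intro a b c L h; rw [ori_rot]; exact h
  · intro a b c L h
    have := List.all_eq_true.mp c_pos _ h
    exact (pos_iff _ _ _).mp this

lemma uniq_side {a b c c' L L' : ℕ} (h : (a, b, c, L) ∈ cellsL) (h' : (a, b, c', L') ∈ cellsL) :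
    c = c' ∧ L = L' := by
  have := List.all_eq_true.mp (List.all_eq_true.mp c_uniq _ h) _ h'
  simp only [Nat.beq_refl, Bool.and_self, Bool.not_true, Bool.false_or, Bool.and_eq_true,
    Nat.beq_eq] at this
  exact this

/-- label of a cell -/
noncomputable def lab (a b c : ℕ) : ℕ := by
  classical exact if h : Cell a b c then h.choose else 0

lemma lab_eq {a b c L : ℕ} (h : (a, b, c, L) ∈ cellsL) : lab a b c = L := by
  classical
  have hc : Cell a b c := ⟨L, h⟩
  unfold lab
  rw [dif_pos hc]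
  exact (uniq_side hc.choose_spec h).2

lemma lab_mem {a b c : ℕ} (h : Cell a b c) : (a, b, c, lab a b c) ∈ cellsL := by
  obtain ⟨L, hL⟩ := h
  rw [lab_eq hL]; exact hL

lemma outs_iff {a b c : ℕ} : Outs a b c ↔ (a = 54 ∧ b = 56 ∧ c = 55) ∨ (a = 56 ∧ b = 55 ∧ c = 54) ∨
    (a = 55 ∧ b = 54 ∧ c = 56) := by
  unfold Outs outsL
  simp

lemma outs_rot {a b c : ℕ} (h : Outs a b c) : Outs b c a := by
  rw [outs_iff] at h ⊢
  rcases h with ⟨rfl, rfl, rfl⟩ | ⟨rfl, rfl, rfl⟩ | ⟨rfl, rfl, rfl⟩ <;> simp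

/-- affine combination -/
lemma bary (a b c x y q : ℝ × ℝ) : ori a b c * ori x y q =
    ori b c q * ori x y a + ori c a q * ori x y b + ori a b q * ori x y c := by
  simp only [ori]; ring

lemma tri_le {a b c x y q : ℝ × ℝ} (h : 0 < ori a b c) (ha : ori x y a ≤ 0) (hb : ori x y b ≤ 0)
    (hc : ori x y c ≤ 0) (hq : q ∈ tri a b c) : ori x y q ≤ 0 := by
  obtain ⟨h1, h2, h3⟩ := hq
  have := bary a b c x y q
  have e1 : ori b c q * ori x y a ≤ 0 := mul_nonpos_of_nonneg_of_nonpos h2 ha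
  have e2 : ori c a q * ori x y b ≤ 0 := mul_nonpos_of_nonneg_of_nonpos h3 hb
  have e3 : ori a b q * ori x y c ≤ 0 := mul_nonpos_of_nonneg_of_nonpos h1 hc
  by_contra hcon
  push Not at hcon
  have : 0 < ori a b c * ori x y q := mul_pos h hcon
  linarith

lemma otr_pos {a b c x y q : ℝ × ℝ} (h : 0 < ori a b c) (ha : 0 ≤ ori x y a) (hb : 0 ≤ ori x y b)
    (hc : 0 ≤ ori x y c) (hs : 0 < ori x y a ∨ 0 < ori x y b ∨ 0 < ori x y c)
    (hq : q ∈ otr a b c) : 0 < ori x y q := by
  obtain ⟨h1, h2, h3⟩ := hq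
  have := bary a b c x y q
  have e1 : 0 ≤ ori b c q * ori x y a := by positivity
  have e2 : 0 ≤ ori c a q * ori x y b := by positivity
  have e3 : 0 ≤ ori a b q * ori x y c := by positivity
  have : 0 < ori a b c * ori x y q := by
    rw [this]
    rcases hs with h0 | h0 | h0
    · have : 0 < ori b c q * ori x y a := by positivity
      linarith
    · have : 0 < ori c a q * ori x y b := by positivity
      linarith
    · have : 0 < ori a b q * ori x y c := by positivity
      linarith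
  exact (mul_pos_iff_of_pos_left h).mp this

lemma isOpen_otr (a b c : ℝ × ℝ) : IsOpen (otr a b c) := by
  have : otr a b c = {p | 0 < ori a b p} ∩ ({p | 0 < ori b c p} ∩ {p | 0 < ori c a p}) := by
    ext p; simp [otr]
  rw [this]
  exact (isOpen_lt continuous_const (ori_cont _ _)).inter
    ((isOpen_lt continuous_const (ori_cont _ _)).inter
      (isOpen_lt continuous_const (ori_cont _ _)))

lemma otr_sub_tri (a b c : ℝ × ℝ) : otr a b c ⊆ tri a b c := fun _ h => ⟨h.1.le, h.2.1.le, h.2.2.le⟩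

lemma otr_rot (a b c : ℝ × ℝ) : otr b c a = otr a b c := by
  ext p; simp only [otr, mem_ofPred_eq]; tauto

lemma sep_base {a b c L a' b' c' L' : ℕ} (h : (a, b, c, L) ∈ baseL) (h' : (a', b', c', L') ∈ baseL)
    (hne : L ≠ L') : Disjoint (otr (P a) (P b) (P c)) (tri (P a') (P b') (P c')) := by
  rw [Set.disjoint_left]
  intro q hq hq'
  have hp := cell_pos' (mem_cellsL.mpr (Or.inl h))
  have hp' := cell_pos' (mem_cellsL.mpr (Or.inl h'))
  have hcl := mem_closure_otr hp' hq'
  obtain ⟨r, hr1, hr2⟩ := mem_closure_iff_nhds.mp hcl _ ((isOpen_otr _ _ _).mem_nhds hq)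
  have hr1' := otr_sub_tri _ _ _ hr1
  have hr2' := otr_sub_tri _ _ _ hr2
  have key := List.all_eq_true.mp (List.all_eq_true.mp c_sep _ h) _ h'
  simp only [sepc, sepl, Bool.or_eq_true, Bool.and_eq_true, Nat.beq_eq, npos_iff] at key
  rcases key with key | key
  · exact hne key
  rcases key with ((((⟨⟨k1, k2⟩, k3⟩ | ⟨⟨k1, k2⟩, k3⟩) | ⟨⟨k1, k2⟩, k3⟩) | ⟨⟨k1, k2⟩, k3⟩) |
    ⟨⟨k1, k2⟩, k3⟩) | ⟨⟨k1, k2⟩, k3⟩
  · have := tri_le hp' k1 k2 k3 hr2'; linarith [hr1.1]
  · have := tri_le hp' k1 k2 k3 hr2'; linarith [hr1.2.1]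
  · have := tri_le hp' k1 k2 k3 hr2'; linarith [hr1.2.2]
  · have := tri_le hp k1 k2 k3 hr1'; linarith [hr2.1]
  · have := tri_le hp k1 k2 k3 hr1'; linarith [hr2.2.1]
  · have := tri_le hp k1 k2 k3 hr1'; linarith [hr2.2.2]

lemma sep_cells {a b c L a' b' c' L' : ℕ} (h : (a, b, c, L) ∈ cellsL)
    (h' : (a', b', c', L') ∈ cellsL) (hne : L ≠ L') :
    Disjoint (otr (P a) (P b) (P c)) (tri (P a') (P b') (P c')) := by
  refine of_base (Q := fun a b c L => L ≠ L' →
    Disjoint (otr (P a) (P b) (P c)) (tri (P a') (P b') (P c'))) ?_ ?_ h hne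
  · intro a b c L h hne; rw [otr_rot]; exact h hne
  · intro a b c L h1 hne
    refine of_base (Q := fun a' b' c' L' => L ≠ L' →
      Disjoint (otr (P a) (P b) (P c)) (tri (P a') (P b') (P c'))) ?_ ?_ h' hne
    · intro a b c L h hne; rw [tri_rot]; exact h hne
    · intro a' b' c' L' h2 hne
      exact sep_base h1 h2 hne

lemma sep_outs {a b c L a' b' c' : ℕ} (h : (a, b, c, L) ∈ cellsL) (h' : Outs a' b' c') :
    Disjoint (otr (P a) (P b) (P c)) (otri (P a') (P b') (P c')) := by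
  refine of_base (Q := fun a b c L =>
    Disjoint (otr (P a) (P b) (P c)) (otri (P a') (P b') (P c'))) ?_ ?_ h
  · intro a b c L h; rw [otr_rot]; exact h
  intro a b c L h
  rw [Set.disjoint_left]
  intro q hq hq'
  have hp := cell_pos' (mem_cellsL.mpr (Or.inl h))
  have h'' := outs_rot h'
  have h''' := outs_rot h''
  have key : ∀ x y z, Outs x y z → 0 < ori (P x) (P y) q := by
    intro x y z hxyz
    have := List.all_eq_true.mp (List.all_eq_true.mp c_osep _ hxyz) _ h
    simp only [Bool.or_eq_true, Bool.and_eq_true, npos_iff, pos_iff] at this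
    obtain ⟨e1, e2, e3, e4⟩ := this
    refine otr_pos hp ?_ ?_ ?_ e4 hq
    · rw [ori_swap']; linarith
    · rw [ori_swap']; linarith
    · rw [ori_swap']; linarith
  rcases hq' with h0 | h0 | h0
  · have := key _ _ _ h'; linarith
  · have := key _ _ _ h''; linarith
  · have := key _ _ _ h'''; linarith

lemma lt_base {a b c L : ℕ} (h : (a, b, c, L) ∈ cellsL) : a < 57 := by
  refine (of_base (Q := fun a b c _ => a < 57 ∧ b < 57 ∧ c < 57) ?_ ?_ h).1
  · intro a b c L h; tauto
  · intro a b c L h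
    have := List.all_eq_true.mp c_lt _ h
    simp only [Bool.and_eq_true] at this
    refine ⟨?_, ?_, ?_⟩
    · simpa [Nat.blt_eq] using this.1.1
    · simpa [Nat.blt_eq] using this.1.2
    · simpa [Nat.blt_eq] using this.2

lemma real_symm {a b k : ℕ} (h : (a, b, k) ∈ realL) : (b, a, k) ∈ realL := by
  unfold realL at h ⊢
  simp only [List.mem_append, List.mem_map, Prod.mk.injEq, Prod.exists] at h ⊢
  rcases h with h | ⟨a', b', k', h, rfl, rfl, rfl⟩
  · exact Or.inr ⟨_, _, _, h, rfl, rfl, rfl⟩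
  · exact Or.inl h

lemma real_iff {a b k : ℕ} : (a, b, k) ∈ realL ↔ (a, b, k) ∈ sideL ∨ (b, a, k) ∈ sideL := by
  unfold realL
  simp only [List.mem_append, List.mem_map, Prod.mk.injEq, Prod.exists]
  constructor
  · rintro (h | ⟨a', b', k', h, rfl, rfl, rfl⟩)
    · exact Or.inl h
    · exact Or.inr h
  · rintro (h | h)
    · exact Or.inl h
    · exact Or.inr ⟨_, _, _, h, rfl, rfl, rfl⟩

/-- the picture -/
noncomputable def X : LPic where
  P := P
  N := 57
  cell := Cell
  outs := Outs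
  cell_rot := fun _ _ _ ⟨L, hL⟩ => ⟨L, rot_mem hL⟩
  outs_rot := fun a b c h => outs_rot h
  cell_lt := fun a b c ⟨_, hL⟩ => lt_base hL
  outs_lt := by
    intro a b c h
    rw [outs_iff] at h; omega
  cell_pos := fun _ _ _ ⟨_, hL⟩ => cell_pos' hL
  outs_pos := by
    intro a b c h
    have := List.all_eq_true.mp c_opos _ h
    exact (pos_iff _ _ _).mp this
  mate := by
    rintro a b c ⟨L, hL⟩
    have := List.all_eq_true.mp c_mate _ hL
    simp only [Bool.or_eq_true, List.any_eq_true, Bool.and_eq_true, Nat.beq_eq, Prod.exists] at this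
    rcases this with ⟨y1, y2, y3, y4, hy, rfl, rfl⟩ | ⟨y1, y2, y3, hy, rfl, rfl⟩
    · exact Or.inl ⟨y3, y4, hy⟩
    · exact Or.inr ⟨y3, hy⟩
  omate := by
    intro a b c h
    have := List.all_eq_true.mp c_omate _ h
    simp only [List.any_eq_true, Bool.and_eq_true, Nat.beq_eq, Prod.exists] at this
    obtain ⟨y1, y2, y3, y4, hy, rfl, rfl⟩ := this
    exact ⟨y3, y4, hy⟩
  some_outs := ⟨54, 56, 55, by simp [outs_iff]⟩
  lab := lab
  olab := oL
  rl := Rl
  lab_rot := by
    rintro a b c ⟨L, hL⟩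
    rw [lab_eq hL, lab_eq (rot_mem hL)]
  lab_mate := by
    rintro a b c d ⟨L, hL⟩ ⟨L', hL'⟩ hn
    rw [lab_eq hL, lab_eq hL']
    have := List.all_eq_true.mp (List.all_eq_true.mp c_labmate _ hL) _ hL'
    simp only [Nat.beq_refl, Bool.and_self, Bool.not_true, Bool.false_or, Bool.or_eq_true,
      Nat.beq_eq, List.any_eq_true, Bool.and_eq_true, Prod.exists] at this
    rcases this with h | ⟨z1, z2, z3, hz, rfl, rfl⟩
    · exact h
    · exact absurd ⟨z3, hz⟩ hn
  lab_omate := by
    rintro a b c d ⟨L, hL⟩ h hn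
    rw [lab_eq hL]
    have := List.all_eq_true.mp (List.all_eq_true.mp c_olabmate _ hL) _ h
    simp only [Nat.beq_refl, Bool.and_self, Bool.not_true, Bool.false_or,
      Nat.beq_eq] at this
    exact this
  rl_symm := by
    rintro a b ⟨k, hk⟩
    exact ⟨k, real_symm hk⟩
  sep := by
    intro a b c a' b' c' h h' hne
    exact sep_cells (lab_mem h) (lab_mem h') hne
  osep := by
    intro a b c a' b' c' h h'
    exact sep_outs (lab_mem h) h'

/-- closed cells that contain the point `i` have it as a corner -/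
lemma corner_of {a b c L i : ℕ} (h : (a, b, c, L) ∈ baseL) (hi : i < 57)
    (hp : P i ∈ tri (P a) (P b) (P c)) : i = a ∨ i = b ∨ i = c := by
  have := List.all_eq_true.mp (List.all_eq_true.mp c_vtx _ h) i (List.mem_range.mpr hi)
  simp only [cor, Bool.or_eq_true, Nat.beq_eq] at this
  rcases this with (h | h) | h
  · rcases h with h | h
    · exact Or.inl h
    · exact Or.inr (Or.inl h)
  · exact Or.inr (Or.inr h)
  rcases h with h | h | h
  · exact absurd hp.1 (not_le.mpr (pos_neg h))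
  · exact absurd hp.2.1 (not_le.mpr (pos_neg h))
  · exact absurd hp.2.2 (not_le.mpr (pos_neg h))

end Pool.Agent.R30.Mat
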