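import Pool.Agent.R30.Mat.Cross
import Pool.Agent.R30.Mat.Local

set_option autoImplicit false

/-! Walks in the faces: the finite check and the walk of a curve. -/

namespace Pool.Agent.R30.Mat

open Set Topology Pool.Agent.R30.C4
open Pool.Agent.R30.Thr (IsArc CrossesAt)

attribute [local irreducible] px py PX PY baseL sideL pathL crossL trL faceL oL BL NKL

/-- states that can be reached from the end `u`: set of crossed edges (as a bit mask), label -/
inductive Reach (u : ℕ) : ℕ → ℕ → Prop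
  | start : Reach u 0 (face u)
  | step {m f g k : ℕ} : Reach u m f → k < 9 → k ≠ u / 2 → m.testBit k = false →
      (k, f, g) ∈ trL → Reach u (m ||| 2 ^ k) g

lemma reach_closed {u : ℕ} (hu : u < 18) {m f : ℕ} (h : Reach u m f) :
    m < 512 ∧ (BB u).testBit (512 * f + m) = true := by
  induction h with
  | start => exact ⟨by norm_num, c_start u hu⟩
  | @step m f g k _ hk hku hb htr ih =>
    obtain ⟨hm, ih⟩ := ih
    have h1 := List.all_eq_true.mp (List.all_eq_true.mp c_mask m (List.mem_range.mpr hm)) k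
      (List.mem_range.mpr hk)
    rw [hb] at h1
    simp only [Bool.false_or, Bool.and_eq_true, Nat.beq_eq, Nat.blt_eq] at h1
    obtain ⟨n1, n2, n3⟩ := h1
    have n2' : m ||| 2 ^ k = m + 2 ^ k := n2
    have n3' : m + 2 ^ k < 512 := n3
    rw [n2']
    refine ⟨n3', ?_⟩
    have h2 := List.all_eq_true.mp (List.all_eq_true.mp c_closed u (List.mem_range.mpr hu)) _ htr
    simp only [Bool.or_eq_true, Nat.beq_eq] at h2
    rcases h2 with h2 | h2
    · exact absurd h2 hku
    have h3 : (stp (BB u) k f g).testBit (512 * g + (m + 2 ^ k)) = true := by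
      have e : stp (BB u) k f g = ((BB u >>> (512 * f)) &&& NK k) <<< (512 * g + 2 ^ k) := rfl
      rw [e, Nat.testBit_shiftLeft, Nat.testBit_and, Nat.testBit_shiftRight]
      have e2 : 512 * g + (m + 2 ^ k) - (512 * g + 2 ^ k) = m := by omega
      rw [e2, ih, n1]
      simp only [Bool.and_self, Bool.and_true, decide_eq_true_eq, ge_iff_le]
      omega
    have h4 : (stp (BB u) k f g) &&& (BB u) = stp (BB u) k f g := h2
    rw [← h4, Nat.testBit_and, Bool.and_eq_true] at h3
    exact h3.2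

/-- no walk from `u` to `v` crosses all other edges once -/
lemma no_reach {u v : ℕ} (hu : u < 18) (hv : v < 18) (hne : u / 2 ≠ v / 2) {m : ℕ}
    (hm : ∀ k < 9, m.testBit k = true ↔ (k ≠ u / 2 ∧ k ≠ v / 2)) : ¬ Reach u m (face v) := by
  intro h
  obtain ⟨h1, h2⟩ := reach_closed hu h
  have e : m = 511 - 2 ^ (u / 2) - 2 ^ (v / 2) := by
    apply Nat.eq_of_testBit_eq
    intro k
    by_cases hk : k < 9
    · rw [c_full _ (by omega) _ (by omega) hne k hk]
      have := hm k hk
      by_cases hh : k ≠ u / 2 ∧ k ≠ v / 2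
      · rw [this.mpr hh]; simp [hh.1, hh.2]
      · have h3 : m.testBit k = false := by
          rw [← Bool.not_eq_true]; exact fun h => hh (this.mp h)
        rw [h3]
        symm
        rw [Bool.and_eq_false_iff]
        rw [not_and_or] at hh
        rcases hh with hh | hh
        · left; simpa using hh
        · right; simpa using hh
    · have h9 : 2 ^ 9 ≤ 2 ^ k := Nat.pow_le_pow_right (by norm_num) (by omega)
      have h9' : 512 ≤ 2 ^ k := h9
      have e1 : m < 2 ^ k := by omega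
      have e2 : 511 - 2 ^ (u / 2) - 2 ^ (v / 2) < 2 ^ k :=
        lt_of_le_of_lt ((Nat.sub_le _ _).trans (Nat.sub_le _ _)) (by omega)
      rw [Nat.testBit_lt_two_pow e1, Nat.testBit_lt_two_pow e2]
  rw [e, c_no u hu v hv hne] at h2
  exact absurd h2 (by simp)

/-- a point between the last event before `s` and `s` -/
lemma exists_before (S : Finset ℕ) (T : ℕ → ℝ) {s : ℝ} (hs : 0 < s) :
    ∃ s', 0 < s' ∧ s' < s ∧ ∀ k ∈ S, T k < s → T k < s' := by
  induction S using Finset.induction_on with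
  | empty => exact ⟨s / 2, by linarith, by linarith, by simp⟩
  | insert a S _ ih =>
    obtain ⟨s', h1, h2, h3⟩ := ih
    by_cases ha : T a < s
    · refine ⟨(max s' (T a) + s) / 2, ?_, ?_, ?_⟩
      · have := le_max_left s' (T a); linarith
      · have : max s' (T a) < s := max_lt h2 ha
        linarith
      · intro k hk hks
        have hm : max s' (T a) < s := max_lt h2 ha
        rcases Finset.mem_insert.mp hk with rfl | hk
        · have := le_max_right s' (T k); linarith
        · have := le_max_left s' (T a); have := h3 k hk hks; linarith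
    · refine ⟨s', h1, h2, ?_⟩
      intro k hk hks
      rcases Finset.mem_insert.mp hk with rfl | hk
      · exact absurd hks ha
      · exact h3 k hk hks

/-- The walk of a curve. -/
theorem walk {u : ℕ} (hu : u < 18) {γ : ℝ → ℝ × ℝ} (hcont : ContinuousOn γ (Icc 0 1))
    (hinj : InjOn γ (Icc 0 1)) (h0 : γ 0 = P u) (S : Finset ℕ) (hS : ∀ k ∈ S, k < 9)
    (hSu : ∀ k ∈ S, k ≠ u / 2) (T : ℕ → ℝ) (hT : ∀ k ∈ S, T k ∈ Ioo (0 : ℝ) 1)
    (hTon : ∀ k ∈ S, γ (T k) ∈ A k)
    (hTu : ∀ k ∈ S, ∀ t ∈ Icc (0 : ℝ) 1, γ t ∈ A k → t = T k)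
    (hTx : ∀ k ∈ S, CrossesAt (A k) (γ '' Icc 0 1) (γ (T k)))
    (hfree : ∀ k < 9, k ∉ S → ∀ t ∈ Ioo (0 : ℝ) 1, γ t ∉ A k)
    (hvert : ∀ t ∈ Ioo (0 : ℝ) 1, ∀ w < 18, γ t ≠ P w) :
    ∀ n : ℕ, ∀ t ∈ Ioo (0 : ℝ) 1, (∀ k ∈ S, T k ≠ t) → (S.filter (fun k => T k < t)).card = n →
      ∀ L, γ t ∈ X.R L → ∃ m, (∀ k < 9, m.testBit k = true ↔ (k ∈ S ∧ T k < t)) ∧ Reach u m L := by
  -- off events the curve avoids all arcs
  have hoff : ∀ t ∈ Ioo (0 : ℝ) 1, (∀ k ∈ S, T k ≠ t) → ∀ j < 9, γ t ∉ A j := by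
    intro t ht hne j hj hm
    by_cases hjS : j ∈ S
    · exact hne j hjS (hTu j hjS t (Ioo_subset_Icc_self ht) hm).symm
    · exact hfree j hj hjS t ht hm
  -- labels of free pieces
  have hpiece : ∀ a b : ℝ, 0 ≤ a → b ≤ 1 → a < b → (∀ k ∈ S, ¬ (a < T k ∧ T k < b)) →
      ∀ c ∈ Icc a b, c ∈ Ioo (0 : ℝ) 1 → (∀ k ∈ S, T k ≠ c) → ∀ L, γ c ∈ X.R L →
      ∀ t ∈ Icc a b, γ t ∈ X.R L := by
    intro a b ha hb hab hfr c hc hc' hcne L hL
    have hsub : Ioo a b ⊆ Icc (0 : ℝ) 1 := fun t ht =>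
      ⟨ha.trans ht.1.le, ht.2.le.trans hb⟩
    have hsub' : Icc a b ⊆ Icc (0 : ℝ) 1 := fun t ht => ⟨ha.trans ht.1, ht.2.trans hb⟩
    obtain ⟨L', hL'⟩ := X.exists_label (γ ((a + b) / 2))
    have hC : IsPreconnected (γ '' Ioo a b) := isPreconnected_Ioo.image _ (hcont.mono hsub)
    have hsubR : γ '' Ioo a b ⊆ X.R L' := by
      refine const' hC ?_ ⟨_, ⟨(a + b) / 2, ⟨by linarith, by linarith⟩, rfl⟩, hL'⟩
      rintro p ⟨t, ht, rfl⟩ j hj
      exact hoff t ⟨by linarith [ht.1], by linarith [ht.2]⟩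
        (fun k hk he => hfr k hk (by rw [he]; exact ht)) j hj
    have hcl : γ '' Icc a b ⊆ closure (γ '' Ioo a b) := by
      have h : closure (Ioo a b) = Icc a b := closure_Ioo hab.ne
      have := ContinuousOn.image_closure (s := Ioo a b) (f := γ)
        (by rw [h]; exact hcont.mono hsub')
      rwa [h] at this
    have hall : ∀ t ∈ Icc a b, γ t ∈ X.R L' := fun t ht =>
      closure_minimal hsubR (X.isClosed_R L') (hcl ⟨t, ht, rfl⟩)
    have : L = L' := label_uniq (hoff c hc' hcne) hL (hall c hc)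
    rw [this]; exact hall
  intro n
  induction n using Nat.strong_induction_on with
  | _ n IH =>
  intro t ht htne hcard L hL
  rcases (S.filter (fun k => T k < t)).eq_empty_or_nonempty with hem | hne
  · -- no event before t
    have hno : ∀ k ∈ S, ¬ T k < t := fun k hk h => by
      have : k ∈ S.filter (fun k => T k < t) := Finset.mem_filter.mpr ⟨hk, h⟩
      rw [hem] at this; simp at this
    have hall := hpiece 0 t le_rfl ht.2.le ht.1 (fun k hk h => hno k hk h.2) t
      ⟨ht.1.le, le_rfl⟩ ht htne L hL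
    have h00 := hall 0 ⟨le_rfl, ht.1.le⟩
    rw [h0] at h00
    have hLf := Pool.Agent.R30.Mat.label_end hu h00
    subst hLf
    refine ⟨0, ?_, Reach.start⟩
    intro k _
    simp only [Nat.zero_testBit, Bool.false_eq_true, false_iff]
    rintro ⟨h1, h2⟩; exact hno k h1 h2
  · obtain ⟨k0, hk0, hmax⟩ := Finset.exists_max_image _ T hne
    rw [Finset.mem_filter] at hk0
    obtain ⟨hk0S, hk0t⟩ := hk0
    have hmax' : ∀ k ∈ S, T k < t → T k ≤ T k0 := fun k hk h =>
      hmax k (Finset.mem_filter.mpr ⟨hk, h⟩)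
    have hs := hT k0 hk0S
    obtain ⟨s', hs'0, hs's, hs'b⟩ := exists_before S T hs.1
    have hs'I : s' ∈ Ioo (0 : ℝ) 1 := ⟨hs'0, hs's.trans hs.2⟩
    have hs'ne : ∀ k ∈ S, T k ≠ s' := by
      intro k hk he
      have := hs'b k hk (by rw [he]; exact hs's)
      linarith
    have hlt : ∀ k ∈ S, (T k < s' ↔ T k < T k0) := fun k hk =>
      ⟨fun h => h.trans hs's, hs'b k hk⟩
    have hcard' : (S.filter (fun k => T k < s')).card < n := by
      rw [← hcard]
      apply Finset.card_lt_card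
      rw [Finset.ssubset_iff_of_subset]
      · refine ⟨k0, Finset.mem_filter.mpr ⟨hk0S, hk0t⟩, ?_⟩
        rw [Finset.mem_filter]; rintro ⟨-, h⟩; linarith
      · intro k hk
        rw [Finset.mem_filter] at hk ⊢
        exact ⟨hk.1, by linarith [hk.2]⟩
    obtain ⟨L', hL'⟩ := X.exists_label (γ s')
    obtain ⟨m', hm', hreach⟩ := IH _ hcard' s' hs'I hs'ne rfl L' hL'
    -- labels on both sides
    have hA1 := hpiece s' (T k0) hs'0.le hs.2.le hs's (by
      rintro k hk ⟨h1, h2⟩
      have := hs'b k hk h2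
      linarith) s' ⟨le_rfl, hs's.le⟩ hs'I hs'ne L' hL'
    have hA2 := hpiece (T k0) t hs.1.le ht.2.le hk0t (by
      rintro k hk ⟨h1, h2⟩
      have := hmax' k hk h2
      linarith) t ⟨hk0t.le, le_rfl⟩ ht htne L hL
    have hδ : 0 < min (T k0 - s') (t - T k0) := lt_min (by linarith) (by linarith)
    have hB1 : ∀ r ∈ Icc (0 : ℝ) 1, r < T k0 → T k0 - r < min (T k0 - s') (t - T k0) →
        γ r ∈ X.R L' := by
      intro r _ h1 h2
      have := min_le_left (T k0 - s') (t - T k0)
      exact hA1 r ⟨by linarith, h1.le⟩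
    have hB2 : ∀ r ∈ Icc (0 : ℝ) 1, T k0 < r → r - T k0 < min (T k0 - s') (t - T k0) →
        γ r ∈ X.R L := by
      intro r _ h1 h2
      have := min_le_right (T k0 - s') (t - T k0)
      exact hA2 r ⟨h1.le, by linarith⟩
    have hk09 := hS k0 hk0S
    have hb0 : m'.testBit k0 = false := by
      rw [← Bool.not_eq_true, hm' k0 hk09]
      rintro ⟨-, h⟩; linarith
    by_cases huniq : ∀ l ∈ S, T l = T k0 → l = k0
    · -- one arc
      have hoff' : ∀ j < 9, j ≠ k0 → γ (T k0) ∉ A j := by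
        intro j hj hjk hm
        by_cases hjS : j ∈ S
        · exact hjk (huniq j hjS (hTu j hjS _ (Ioo_subset_Icc_self hs) hm).symm)
        · exact hfree j hj hjS _ hs hm
      have htr := cross_one two_arcs hcont hinj hs hδ (hTon k0 hk0S) hoff' (hvert _ hs)
        (hTx k0 hk0S) hB1 hB2 (hA1 _ ⟨hs's.le, le_rfl⟩) (hA2 _ ⟨le_rfl, hk0t.le⟩)
      refine ⟨m' ||| 2 ^ k0, ?_, Reach.step hreach hk09 (hSu k0 hk0S) hb0 htr⟩
      intro k hk
      rw [Nat.testBit_or, Nat.testBit_two_pow, Bool.or_eq_true, hm' k hk, decide_eq_true_eq]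
      constructor
      · rintro (⟨h1, h2⟩ | rfl)
        · exact ⟨h1, by linarith⟩
        · exact ⟨hk0S, hk0t⟩
      · rintro ⟨h1, h2⟩
        rcases (hmax' k h1 h2).lt_or_eq with h | h
        · exact Or.inl ⟨h1, (hlt k h1).mpr h⟩
        · exact Or.inr (huniq k h1 h).symm
    · push Not at huniq
      obtain ⟨l, hlS, hTl, hlk⟩ := huniq
      have hl9 := hS l hlS
      have hon2 : γ (T k0) ∈ A l := by rw [← hTl]; exact hTon l hlS
      have hkl : k0 ≠ l := fun h => hlk h.symm
      have hpt := A_inter hkl (hTon k0 hk0S) hon2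
      have hoff' : ∀ j < 9, j ≠ k0 → j ≠ l → γ (T k0) ∉ A j := by
        intro j hj hjk hjl hm
        exact no_three hk09 hl9 hj hkl (Ne.symm hjk) (Ne.symm hjl) (hTon k0 hk0S) hon2 hm
      obtain ⟨M, ht1, ht2⟩ := cross_two two_arcs hcont hinj hkl hs hδ hoff' (hvert _ hs)
        (fun r hr hm => hTu k0 hk0S r hr hm) (fun r hr hm => (hTu l hlS r hr hm).trans hTl)
        (hTx k0 hk0S) (by rw [← hTl]; exact hTx l hlS)
        (by rw [hpt]; exact crosses hk09 hl9 hkl) hB1 hB2
      have hb1 : (m' ||| 2 ^ k0).testBit l = false := by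
        rw [Nat.testBit_or, Nat.testBit_two_pow, Bool.or_eq_false_iff]
        refine ⟨?_, ?_⟩
        · rw [← Bool.not_eq_true, hm' l hl9]
          rintro ⟨-, h⟩; linarith
        · simpa using hkl
      refine ⟨(m' ||| 2 ^ k0) ||| 2 ^ l, ?_,
        Reach.step (Reach.step hreach hk09 (hSu k0 hk0S) hb0 ht1) hl9 (hSu l hlS) hb1 ht2⟩
      intro k hk
      rw [Nat.testBit_or, Nat.testBit_or, Nat.testBit_two_pow, Nat.testBit_two_pow,
        Bool.or_eq_true, Bool.or_eq_true, hm' k hk, decide_eq_true_eq, decide_eq_true_eq]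
      constructor
      · rintro ((⟨h1, h2⟩ | rfl) | rfl)
        · exact ⟨h1, by linarith⟩
        · exact ⟨hk0S, hk0t⟩
        · exact ⟨hlS, by rw [hTl]; exact hk0t⟩
      · rintro ⟨h1, h2⟩
        rcases (hmax' k h1 h2).lt_or_eq with h | h
        · exact Or.inl (Or.inl ⟨h1, (hlt k h1).mpr h⟩)
        · by_cases e1 : k = k0
          · exact Or.inl (Or.inr e1.symm)
          · by_cases e2 : k = l
            · exact Or.inr e2.symm
            · exfalso
              have hon3 : γ (T k0) ∈ A k := by rw [← h]; exact hTon k h1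
              exact hoff' k hk e1 e2 hon3

end Pool.Agent.R30.Mat
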